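import Pool.Agent.Lib.MP_5c318e_ag.S.CVA
import Pool.Agent.Lib.MP_5c318e_ag.S.CCov
import Pool.Agent.Lib.MP_5c318e_ag.S.FrontA
import Pool.Agent.Lib.MP_5c318e_ag.A.Split

/-! The area of a fibre under a rational map is bounded by a degree that does not depend on the
fibre; the volume of the fibres for a Fubini-Study form. -/

set_option autoImplicit false

namespace Pool.Agent.Lib.MP_5c318e_ag

open MeasureTheory Set Filter Topology Polynomial
open scoped ENNReal

section plk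

variable {k F ι : Type} [Field k] [Field F] [Algebra k F] [Fintype ι] [DecidableEq ι]

/-- the minor `Z ∧ d_1 Z ∧ ⋯ ∧ d_n Z` -/
noncomputable def Plk (d : ι → Derivation k F F) (Z : Option ι → F) : F :=
  (Matrix.of fun r c : Option ι => r.elim (Z c) fun i => d i (Z c)).det

theorem Plk_zero (d : ι → Derivation k F F) {Z : Option ι → F} (h : Z none = 0) : Plk d Z = 0 :=
  Matrix.det_eq_zero_of_column_eq_zero none fun r => by
    rcases r with _ | i <;> simp [h]

theorem Plk_eq (d : ι → Derivation k F F) {Z : Option ι → F} (h : Z none ≠ 0) :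
    Plk d Z = Z none ^ (Fintype.card ι + 1) * Jac d fun i => Z (some i) / Z none := by
  let e : Option ι ≃ Unit ⊕ ι := (Equiv.optionEquivSumPUnit ι).trans (Equiv.sumComm _ _)
  let f : ι → F := fun i => Z (some i) / Z none
  have hf : ∀ i, Z (some i) = Z none * f i := fun i => (mul_div_cancel₀ _ h).symm
  have h1 : (Matrix.of fun r c : Option ι => r.elim (Z c) fun i => d i (Z c)).submatrix e.symm e.symm =
      Matrix.fromBlocks (Z none • (1 : Matrix Unit Unit F)) 0 (Matrix.of fun i _ => d i (Z none))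
        (Z none • (1 : Matrix ι ι F)) *
      Matrix.fromBlocks 1 (Matrix.of fun _ j => f j) 0 (Matrix.of fun i j => d i (f j)) := by
    rw [Matrix.fromBlocks_multiply]
    ext (r | r) (c | c) <;> simp [e, hf, Matrix.mul_apply, mul_comm, add_comm]
  rw [Plk, ← Matrix.det_submatrix_equiv_self e.symm, h1, Matrix.det_mul, Matrix.det_fromBlocks_zero₁₂,
    Matrix.det_fromBlocks_zero₂₁, Jac, ← Matrix.det_transpose (Matrix.of fun i j => d i (f j))]
  simp only [Matrix.det_smul, Matrix.det_one, mul_one, one_mul, Fintype.card_unique, pow_one]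
  rw [pow_succ']
  rfl

end plk

variable {δ ν K M : Type} [Fintype δ] [DecidableEq δ] [Fintype ν] [DecidableEq ν]
  [Field K] [Algebra ℂ K] [Field M] [Algebra ℂ M] [Algebra K M] [IsScalarTower ℂ K M]
variable {B : Cht δ K}

namespace Ar

omit [Fintype δ] [DecidableEq δ] [Fintype ν] [DecidableEq ν] in
/-- a nonzero polynomial in `(y, w)` stays nonzero in `w` for general `y` -/
theorem slice {g : MvPolynomial (δ ⊕ ν) ℂ} (hg : g ≠ 0) : ∃ m : MvPolynomial δ ℂ, m ≠ 0 ∧
    ∀ y, MvPolynomial.eval y m ≠ 0 → ∃ q : MvPolynomial ν ℂ, q ≠ 0 ∧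
      ∀ w, MvPolynomial.eval w q = MvPolynomial.eval (Sum.elim y w) g := by
  let G : MvPolynomial ν (MvPolynomial δ ℂ) :=
    MvPolynomial.sumAlgEquiv ℂ ν δ (MvPolynomial.renameEquiv ℂ (Equiv.sumComm δ ν) g)
  have hG : G ≠ 0 := by
    simpa only [G, ne_eq, map_eq_zero_iff _ (AlgEquiv.injective _)] using hg
  obtain ⟨m, hm⟩ := MvPolynomial.exists_coeff_ne_zero hG
  refine ⟨_, hm, fun y hy => ⟨MvPolynomial.map (MvPolynomial.eval y) G, fun e => hy ?_, fun w => ?_⟩⟩
  · have := congrArg (MvPolynomial.coeff m) e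
    rwa [MvPolynomial.coeff_map, MvPolynomial.coeff_zero] at this
  · simp only [G]
    clear hm hy hG G hg
    induction g using MvPolynomial.induction_on with
    | C c => simp
    | add p q hp hq => simp only [map_add, hp, hq]
    | mul_X q i hq =>
      simp only [map_mul, hq]
      congr 1
      rcases i with i | i <;> simp

/-- an equation over the polynomial ring of a transcendence basis -/
theorem rel {σ : Type} {y : σ → M} (hy : IsTranscendenceBasis ℂ y) (a : M) :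
    ∃ P : (MvPolynomial σ ℂ)[X], P ≠ 0 ∧
      P.eval₂ (MvPolynomial.aeval y : MvPolynomial σ ℂ →ₐ[ℂ] M).toRingHom a = 0 := by
  obtain ⟨Q, hQ, e⟩ := hy.isAlgebraic.isAlgebraic a
  let φ := hy.1.aevalEquiv
  refine ⟨Q.map (φ.symm : _ →+* MvPolynomial σ ℂ), (Polynomial.map_ne_zero_iff φ.symm.injective).2 hQ, ?_⟩
  rw [eval₂_map, ← e, aeval_def]
  congr 1
  ext1 r
  obtain ⟨g, rfl⟩ := φ.surjective r
  simp [φ]

end Ar

omit [IsScalarTower ℂ K M] in
theorem Rel.gen_reg (T : Rel B ν M) (φ : M) :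
    ∀ᶠ b in B.D.gen, ∀ᶠ p in (T.fib b).gen, p.1.Reg φ := by
  obtain ⟨a, c, hc, e⟩ := T.X.frac φ
  exact (T.gen_ne hc).mono fun b hb => hb.mono fun p hp => ⟨a, c, hp, e⟩

/-- the number of sheets over a transcendence basis -/
theorem Rel.sheets (T : Rel B ν M) {f : ν → M} (hf : IsTranscendenceBasis K f) :
    ∃ d : ℕ, ∀ᶠ b in B.D.gen, ∀ᵐ w : ν → ℂ,
      {p : T.Fib b | (∀ i, p.1.Reg (f i)) ∧ (fun i => p.1.ev (f i)) = w}.encard ≤ d := by
  classical
  obtain ⟨n, g, hg⟩ := Pt.exists_gens T.X.O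
  have hy := basis_sum B.basis hf
  set y := Sum.elim (algebraMap K M ∘ fun i => (B.z i : K)) f with hyd
  choose P hP e using fun l => Ar.rel hy (g l)
  choose m hm hq using fun l => Ar.slice (leadingCoeff_ne_zero.2 (hP l))
  refine ⟨∏ l, (P l).natDegree, ?_⟩
  have h1 : ∀ l, ∀ᶠ b in B.D.gen, MvPolynomial.eval (B.D.π b) (m l) ≠ 0 :=
    fun l => ⟨m l, hm l, fun _ h => h⟩
  filter_upwards [eventually_all.2 h1] with b hb
  choose q q0 hq using fun l => hq l _ (hb l)
  filter_upwards [ae_all_iff.2 fun l => RArea.null_poly (q0 l)] with w hw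
  let R : Fin n → ℂ[X] := fun l => (P l).map (MvPolynomial.eval (Sum.elim (B.D.π b) w))
  have R0 : ∀ l, R l ≠ 0 := fun l e0 => by
    have := congrArg (coeff · (P l).natDegree) e0
    simp only [R, coeff_map, coeff_zero] at this
    exact hw l ((hq l w).trans this)
  refine (encard_le_encard_of_injOn (f := fun p l => p.1 (g l))
    (t := (Fintype.piFinset fun l => (R l).roots.toFinset : Finset (Fin n → ℂ))) ?_
    fun p _ p' _ h => Subtype.ext ((Pt.isEmbedding_gens g hg).injective h)).trans ?_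
  · rintro p ⟨hr, hv⟩
    simp only [Finset.mem_coe, Fintype.mem_piFinset, Multiset.mem_toFinset, mem_roots (R0 _)]
    intro l
    have hz : ∀ i, y (Sum.inl i) = (T.X.z (Sum.inl i) : M) := fun i => (T.zy_coe i).symm
    have hreg : ∀ i, y i ∈ p.1.loc := by
      rintro (i | i)
      · rw [hz]; exact p.1.reg_coe _
      · exact hr i
    let y' : δ ⊕ ν → p.1.loc := fun i => ⟨y i, hreg i⟩
    let a : p.1.loc := ⟨g l, p.1.reg_coe _⟩
    have e1 : (P l).eval₂ (MvPolynomial.aeval y' : _ →ₐ[ℂ] p.1.loc).toRingHom a = 0 := by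
      refine Subtype.ext ?_
      have := hom_eval₂ (P l) (MvPolynomial.aeval y' : _ →ₐ[ℂ] p.1.loc).toRingHom
        (p.1.loc.val : p.1.loc →+* M) a
      refine this.trans (Eq.trans ?_ (e l))
      congr 1
      exact MvPolynomial.ringHom_ext (fun c => by simp) fun i => by simp [y']
    have e2 := hom_eval₂ (P l) (MvPolynomial.aeval y' : _ →ₐ[ℂ] p.1.loc).toRingHom
      (p.1.evh : p.1.loc →+* ℂ) a
    rw [e1, map_zero] at e2
    rw [IsRoot, eval_map]
    refine Eq.trans ?_ e2.symm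
    congr 1
    · refine MvPolynomial.ringHom_ext (fun c => by simp) fun i => ?_
      rcases i with i | i
      · have : p.1 (T.X.z (Sum.inl i)) = b (B.z i) := by
          rw [T.zy]; exact DFunLike.congr_fun p.2 (B.z i)
        simp [y', hz, this, B.π_eq]
      · simp [y', hyd, ← hv]
    · exact (p.1.ev_coe _).symm
  · rw [encard_coe_eq_coe_finsetCard, Nat.cast_le, Fintype.card_piFinset]
    exact Finset.prod_le_prod' fun l _ => (Multiset.toFinset_card_le _).trans
      ((card_roots' _).trans natDegree_map_le)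

/-- the area formula with a uniform degree -/
theorem Rel.area_gen (T : Rel B ν M) (f : ν → M) :
    ∃ d : ℕ, ∀ᶠ b in B.D.gen, ∀ g : (ν → ℂ) → ℝ≥0∞, Measurable g →
      ∫⁻ p, ENNReal.ofReal (‖p.1.ev (Jac T.dx f)‖ ^ 2) * g (fun i => p.1.ev (f i)) ∂(T.fib b).μ ≤
        d * ∫⁻ w, g w := by
  by_cases hJ : Jac T.dx f = 0
  · exact ⟨0, .of_forall fun b g _ => by simp [hJ]⟩
  have : CharZero M := charZero_of_injective_algebraMap (algebraMap ℂ M).injective
  obtain ⟨d, hd⟩ := T.sheets (Front.basis_of_jac T.basis hJ)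
  refine ⟨d, ?_⟩
  filter_upwards [hd, eventually_all.2 fun i => T.gen_reg (f i)] with b hb hr g hg
  obtain ⟨E, h1, h2, -⟩ := RD.exists_id (ι := ν)
  let U : Set (T.Fib b) := {p | ∀ i, p.1.Reg (f i)}
  have hU : IsOpen U := by
    simp only [U, ofPred_forall]
    exact isOpen_iInter_of_finite fun i => (Pt.isOpen_reg (f i)).preimage continuous_subtype_val
  have hae : ∀ᵐ p ∂(T.fib b).μ, p ∈ U := (T.fib b).ae_of_gen (eventually_all.2 hr)
  let τ : T.Fib b → ν → ℂ := fun p i => p.1.ev (f i)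
  have hj := fun p (hp : p ∈ U) => (T.cvEv b).jac (f := f) (g := τ) hp (.of_forall fun _ _ => rfl)
  have hm : Measurable τ := measurable_pi_lambda _ fun i =>
    (Pt.measurable_ev (f i)).comp measurable_subtype_coe
  have key := (T.fib b).area E hU (τ := τ) (fun p hp => (continuousAt_pi.2 fun i =>
    (hp i).continuousAt.comp continuous_subtype_val.continuousAt).continuousWithinAt)
    (fun p hp => by rw [h1]; exact (hj p hp).1) (hg.comp hm)
  rw [h1, h2] at key
  rw [← Measure.restrict_eq_self_of_ae_mem hae, ← lintegral_const_mul _ hg]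
  refine le_trans (setLIntegral_mono' hU.measurableSet fun p hp => ?_)
    (key.le.trans (lintegral_mono_ae (hb.mono fun w hw => ?_)))
  · rw [← (hj p hp).2]
    exact le_rfl
  · rw [tsum_congr (g := fun _ => g w) fun p => by rw [Function.comp_apply, p.2.2.1],
      ENNReal.tsum_set_const]
    gcongr
    refine le_trans (ENat.toENNReal_le.2 ((encard_le_encard ?_).trans hw)) (by simp)
    exact fun p hp => ⟨hp.1, hp.2.1⟩

theorem Ar.fs_fin : ∫⁻ w : ν → ℂ,
    ENNReal.ofReal (1 / (1 + ∑ i, ‖w i‖ ^ 2) ^ (Fintype.card ν + 1)) ≠ ⊤ := by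
  have h := (integrable_rpow_neg_one_add_norm_sq (E := ν → ℂ) (μ := volume)
    (r := 2 * (Fintype.card ν + 1 : ℕ)) (by
      simp [Module.finrank_pi_fintype, Complex.finrank_real_complex]; linarith)).lintegral_lt_top
  refine ne_top_of_le_ne_top h.ne (lintegral_mono fun w => ENNReal.ofReal_le_ofReal ?_)
  have h1 : ‖w‖ ^ 2 ≤ ∑ i, ‖w i‖ ^ 2 := by
    rw [← Real.le_sqrt (norm_nonneg _) (by positivity), pi_norm_le_iff_of_nonneg (Real.sqrt_nonneg _)]
    exact fun i => Real.le_sqrt_of_sq_le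
      (Finset.single_le_sum (f := fun i => ‖w i‖ ^ 2) (fun _ _ => by positivity) (Finset.mem_univ i))
  rw [show -(2 * ((Fintype.card ν + 1 : ℕ) : ℝ)) / 2 = -((Fintype.card ν + 1 : ℕ) : ℝ) by ring,
    Real.rpow_neg (by positivity), Real.rpow_natCast, one_div]
  gcongr

/-- the density of the Fubini-Study volume of the map `[Z]` on the fibres, times `(n + 1)!` -/
noncomputable def Rel.fsv (T : Rel B ν M) {κ : Type} [Fintype κ] (Z : κ → M) (p : Pt T.X.O) : ℝ :=
  (∑ J : Option ν → κ, ‖p.ev (Plk T.dx (Z ∘ J))‖ ^ 2) /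
    (∑ j, ‖p.ev (Z j)‖ ^ 2) ^ (Fintype.card ν + 1)

theorem Rel.area_one (T : Rel B ν M) (Z : Option ν → M) :
    ∃ C : ℝ≥0∞, C ≠ ⊤ ∧ ∀ᶠ b in B.D.gen, ∫⁻ p, ENNReal.ofReal (‖p.1.ev (Plk T.dx Z)‖ ^ 2 /
      (∑ j, ‖p.1.ev (Z j)‖ ^ 2) ^ (Fintype.card ν + 1)) ∂(T.fib b).μ ≤ C := by
  by_cases h0 : Z none = 0
  · exact ⟨0, ENNReal.zero_ne_top, .of_forall fun b => by simp [Plk_zero _ h0]⟩
  let f : ν → M := fun i => Z (some i) / Z none
  obtain ⟨d, hd⟩ := T.area_gen f
  refine ⟨_, ENNReal.mul_ne_top (ENNReal.natCast_ne_top d) (Ar.fs_fin (ν := ν)), ?_⟩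
  filter_upwards [hd, eventually_all.2 fun j => T.gen_reg (Z j), T.gen_reg (Z none)⁻¹]
    with b hb hr hi
  refine le_trans (lintegral_mono_ae ?_) (hb _ (by fun_prop))
  filter_upwards [(T.fib b).ae_of_gen (eventually_all.2 hr), (T.fib b).ae_of_gen hi] with p h1 h2
  have n0 : p.1.ev (Z none) ≠ 0 := fun e => by
    have := (p.1.ev_mul (h1 none) h2).2
    rw [mul_inv_cancel₀ h0, e, Pt.ev_one, zero_mul] at this
    exact one_ne_zero this
  have hf := fun i => p.1.ev_div (h1 (some i)) (h1 none) n0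
  have hp := p.1.ev_pow (h1 none) (Fintype.card ν + 1)
  have n1 : 0 < ‖p.1.ev (Z none)‖ := norm_pos_iff.2 n0
  rw [← ENNReal.ofReal_mul (by positivity), Plk_eq _ h0,
    (p.1.ev_mul hp.1 ((T.cvEv b).reg_jac fun i => (hf i).1)).2, hp.2, Fintype.sum_option]
  refine ENNReal.ofReal_le_ofReal (le_of_eq ?_)
  have e : ‖p.1.ev (Z none)‖ ^ 2 + ∑ i, ‖p.1.ev (Z (some i))‖ ^ 2 =
      ‖p.1.ev (Z none)‖ ^ 2 * (1 + ∑ i, ‖p.1.ev (f i)‖ ^ 2) := by
    rw [mul_add, mul_one, Finset.mul_sum]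
    refine congrArg _ (Finset.sum_congr rfl fun i _ => ?_)
    rw [(hf i).2, norm_div]
    field_simp
  rw [e, norm_mul, norm_pow, mul_pow, mul_pow, ← pow_mul, ← pow_mul, mul_comm 2]
  field_simp
  rfl

/-- AREA: the Fubini-Study volume of the fibres is bounded -/
theorem Rel.area (T : Rel B ν M) {κ : Type} [Fintype κ] (Z : κ → M) :
    ∃ C : ℝ≥0∞, C ≠ ⊤ ∧ ∀ᶠ b in B.D.gen,
      ∫⁻ p, ENNReal.ofReal (T.fsv Z p.1) ∂(T.fib b).μ ≤ C := by
  classical
  choose C hC h using fun J : Option ν → κ => T.area_one (Z ∘ J)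
  let N : ℝ≥0∞ := ((Fintype.card ν + 1 : ℕ) : ℝ≥0∞) ^ (Fintype.card ν + 1)
  have hN : N ≠ ⊤ := ENNReal.pow_ne_top (ENNReal.natCast_ne_top _)
  refine ⟨N * ∑ J, C J, ENNReal.mul_ne_top hN (ENNReal.sum_ne_top.2 fun J _ => hC J), ?_⟩
  filter_upwards [eventually_all.2 h, eventually_all.2 fun j => T.gen_reg (Z j)] with b hb hr
  have hm : ∀ φ : M, Measurable fun p : T.Fib b => p.1.ev φ := fun φ =>
    (Pt.measurable_ev φ).comp measurable_subtype_coe
  refine le_trans ?_ (mul_le_mul_right (Finset.sum_le_sum fun J _ => hb J) N)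
  rw [← lintegral_finsetSum _ fun J _ => by fun_prop, ← lintegral_const_mul' _ _ hN]
  refine lintegral_mono_ae (((T.fib b).ae_of_gen (eventually_all.2 hr)).mono fun p hp => ?_)
  simp only [N]
  rw [← ENNReal.ofReal_sum_of_nonneg fun _ _ => by positivity, ← ENNReal.ofReal_natCast,
    ← ENNReal.ofReal_pow (by positivity), ← ENNReal.ofReal_mul (by positivity), Rel.fsv,
    Finset.sum_div, Finset.mul_sum]
  refine ENNReal.ofReal_le_ofReal (Finset.sum_le_sum fun J _ => ?_)
  have h1 : ∑ c, ‖p.1.ev ((Z ∘ J) c)‖ ^ 2 ≤ (Fintype.card ν + 1 : ℕ) * ∑ j, ‖p.1.ev (Z j)‖ ^ 2 := by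
    rw [← Fintype.card_option, ← nsmul_eq_mul, ← Finset.card_univ]
    exact Finset.sum_le_card_nsmul _ _ _ fun c _ => Finset.single_le_sum
      (f := fun j => ‖p.1.ev (Z j)‖ ^ 2) (fun _ _ => by positivity) (Finset.mem_univ (J c))
  rcases (Finset.sum_nonneg fun c _ => sq_nonneg ‖p.1.ev ((Z ∘ J) c)‖).eq_or_lt with h0 | h0
  · have h2 : p.1.ev (Plk T.dx (Z ∘ J)) = 0 := by
      rw [Plk, (p.1.ev_det ?_).2]
      · exact Matrix.det_eq_zero_of_row_eq_zero none fun c => by
          simpa using (Finset.sum_eq_zero_iff_of_nonneg fun c _ =>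
            sq_nonneg ‖p.1.ev ((Z ∘ J) c)‖).1 h0.symm c (Finset.mem_univ c)
      · rintro (_ | i) c
        · exact hp (J c)
        · exact (T.cvEv b).reg (hp (J c)) i
    simp [h2]
  · have h2 : 0 < ∑ j, ‖p.1.ev (Z j)‖ ^ 2 := 
      (mul_pos_iff_of_pos_left (by positivity)).1 (h0.trans_le h1)
    rw [← mul_div_assoc, div_le_div_iff₀ (by positivity) (by positivity), mul_comm _ (‖_‖ ^ 2),
      mul_assoc, ← mul_pow]
    gcongr

end Pool.Agent.Lib.MP_5c318e_ag
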