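import Pool.Agent.Lib.MP_5c318e_ag.Ar.Wt
import Pool.Agent.Lib.MP_5c318e_ag.Me.Der

/-! The Fubini-Study density of the base curve of a set-up. -/

set_option autoImplicit false
set_option linter.unusedSectionVars false

namespace Pool.Agent.Lib.MP_5c318e_ag

open MeasureTheory Set Filter Topology Complex

variable {ν K M : Type} [Fintype ν] [DecidableEq ν] [Field K] [Algebra ℂ K] [Field M] [Algebra ℂ M]
  [Algebra K M] [IsScalarTower ℂ K M]

theorem Cht.sos_t (B : Cht Unit K) : B.Sos fun b => 1 + ‖b (B.z ())‖ ^ 2 :=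
  (Cht.sos_const zero_le_one).add (Cht.sos_sq _)

theorem Cht.levi_t (B : Cht Unit K) (b : Pt B.O) :
    B.D.levi (fun b => Real.log (1 + ‖b (B.z ())‖ ^ 2)) b 1 = ((1 + ‖b (B.z ())‖ ^ 2) ^ 2)⁻¹ := by
  have h := RD.levi_lsq' (D := B.D) (Z := fun j p => p (![1, B.z ()] j)) (fun _ => B.hol _)
    (x := b) (by simp only [Fin.sum_univ_two]; simp; positivity) 1
  have e : (1 : Unit → ℂ) = Pi.single () 1 := funext fun _ => by simp
  have e1 : B.D.fd (fun q => q (B.z ())) b 1 = 1 := by
    rw [e, B.fd_eq, ← map_one b]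
    exact congrArg b (Subtype.ext ((B.der_z _ _).trans (if_pos rfl)))
  have e0 : B.D.fd (fun q => q 1) b 1 = 0 := by
    rw [e, B.fd_eq, ← map_zero b]
    exact congrArg b (Subtype.ext (Derivation.map_one_eq_zero _))
  simp only [Fin.sum_univ_two, Matrix.cons_val_zero, Matrix.cons_val_one] at h
  rw [e0, e1] at h
  simp only [map_one, norm_one, one_pow, map_zero, mul_zero, mul_one, zero_add, norm_zero,
    zero_pow two_ne_zero] at h
  rw [h]
  field_simp
  ring

namespace Dat

variable (d : Dat Unit K ν M)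

/-- the Fubini-Study density of the base -/
noncomputable def fs (d : Dat Unit K ν M) (b : Pt d.B.O) : ℝ := ((1 + ‖b (d.B.z ())‖ ^ 2) ^ 2)⁻¹

theorem fs_pos (b : Pt d.B.O) : 0 < d.fs b := by unfold fs; positivity

theorem fs_cont : Continuous d.fs :=
  ((continuous_const.add ((d.B.hol _).cont.norm.pow 2)).pow 2).inv₀ fun b =>
    (by positivity : (1 + ‖b (d.B.z ())‖ ^ 2) ^ 2 ≠ 0)

theorem fs_int : Integrable d.fs d.B.D.μ :=
  (d.B.sos_t.area fun _ => by positivity).congr (.of_forall d.B.levi_t)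

end Dat

end Pool.Agent.Lib.MP_5c318e_ag
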