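import Pool.Agent.Lib.MP_5c318e_ag.Ar.Sat
import Pool.Agent.Lib.MP_5c318e_ag.Bo.Field
import Pool.Agent.Lib.MP_5c318e_ag.Ar.Fs
import Pool.Agent.Lib.MP_5c318e_ag.Vl.Lift
import Pool.Agent.Lib.MP_5c318e_ag.W.Conn
import Pool.Agent.Lib.MP_5c318e_ag.Sx.SDefs
import Pool.Agent.Lib.MP_5c318e_ag.Iv.Defs

/-! The vector field of a set-up with constant norms. -/

set_option autoImplicit false
set_option linter.unusedSectionVars false

namespace Pool.Agent.Lib.MP_5c318e_ag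

open MeasureTheory Set Filter Topology Complex
open scoped ENNReal ComplexConjugate

variable {ν K M : Type} [Fintype ν] [DecidableEq ν] [Field K] [Algebra ℂ K] [Field M] [Algebra ℂ M]
  [Algebra K M] [IsScalarTower ℂ K M]

namespace Dat

variable {d : Dat Unit K ν M} {i0 : Fin d.r} {I : Type} [Fintype I] {f : I → ν → M}

variable (d) in
theorem chi_eq : d.chi = fun p => ((d.m - 1) / d.m - 1) * Real.log (∑ i, ‖p (d.τ i)‖ ^ 2) :=
  funext fun p => by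
    have : (d.m : ℝ) ≠ 0 := by linarith [d.wt_m]
    rw [chi, Bs]
    field_simp
    ring

theorem fld_exp (hu : IsUnit (d.τ i0)) (p : Pt d.T.X.O) :
    Real.exp (-d.chi p) = d.Bs p ^ (d.m : ℝ)⁻¹ := by
  rw [d.chi_eq]
  exact exp_mu hu p

/-- the mass of the fibres is bounded -/
theorem Const.chi_up (h : d.Const) (hu : IsUnit (d.τ i0)) : ∃ C : ℝ, ∀ b,
    ∫⁻ p, ENNReal.ofReal (Real.exp (-d.chi p.1)) ∂(d.T.fib b).μ ≤ ENNReal.ofReal C := by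
  obtain ⟨C, hC, h1⟩ := h.mass
  simp only [fld_exp hu]
  exact ⟨C.toReal, fun b => (h1 b).trans_eq (ENNReal.ofReal_toReal hC).symm⟩

theorem Const.fs_int (h : d.Const) (hu : IsUnit (d.τ i0)) :
    Integrable (fun p => d.fs (p.res d.T.inc) * Real.exp (-d.chi p)) d.T.X.D.μ := by
  obtain ⟨C, hC, h1⟩ := h.mass
  have mm : Measurable fun p => d.fs (p.res d.T.inc) * d.Bs p ^ (d.m : ℝ)⁻¹ :=
    (d.fs_cont.comp (Pt.continuous_res d.T.inc)).measurable.mul (d.meas_Bs.pow_const _)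
  simp only [fld_exp hu]
  refine (lintegral_ofReal_ne_top_iff_integrable mm.aestronglyMeasurable (.of_forall fun p =>
    mul_nonneg (d.fs_pos _).le (Real.rpow_nonneg (d.Bs_nonneg p) _))).1 ?_
  rw [(d.T.fubini mm.ennreal_ofReal).2]
  refine ne_top_of_le_ne_top (ENNReal.mul_ne_top d.fs_int.lintegral_lt_top.ne hC) ?_
  rw [← lintegral_mul_const' _ _ hC]
  refine lintegral_mono fun b => le_trans (le_of_eq ?_) (mul_le_mul_right (h1 b) _)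
  rw [← lintegral_const_mul' _ _ ENNReal.ofReal_ne_top]
  exact lintegral_congr fun p => by rw [p.2, ENNReal.ofReal_mul (d.fs_pos b).le]

variable {Φ : Pt d.T.X.O → ℝ} {P : Pt d.B.O → ℝ}

/-- the base component of a square integrable field is a constant combination of the frame -/
theorem Const.resV (h : d.Const) (hu : IsUnit (d.τ i0)) (hf : ∀ i l, f i l ∈ d.T.X.O)
    (hP : d.B.Met P)
    (le : ∀ p ξ, d.B.D.levi P (p.res d.T.inc) (fun i => ξ (Sum.inl i)) ≤ d.T.X.D.levi Φ p ξ)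
    {W : Pt d.T.X.O → Unit ⊕ ν → ℂ} (hW : d.T.X.D.HH Φ d.ph W) : ∃ a : Fin d.r → ℂ, ∀ p,
      d.T.X.D.vd W (fun p => p (d.T.X.z (Sum.inl ()))) p = ∑ i, a i * p (d.τ i) := by
  have := d.B.preconnected d.T.finB
  have R0 : (0 : ℝ) < (d.m - 1 : ℝ)⁻¹ := inv_pos.2 (by linarith [d.wt_m])
  obtain ⟨κ, κ0, low⟩ := h.lowV hu f le_rfl
  obtain ⟨a, ha⟩ := d.T.res (τ := fun i p => p (d.τ i)) (fun i => d.T.X.hol _) (psh_ph hu).1.cont
    (wt_lists hu hf).1.cont (d.yy_nonneg f) hP.pos hP.cut le R0 (satV hu hf le_rfl)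
    ⟨κ, κ0, d.B.D.ae_of_gen low⟩ hW.hol hW.l2
  exact ⟨a, fun p => (d.T.vd_t W p).trans (ha p)⟩

/-- the members of the frame are base components of tangent fields -/
theorem Const.liftV (h : d.Const) (hu : IsUnit (d.τ i0)) (hf : ∀ i l, f i l ∈ d.T.X.O)
    (hΦ : d.T.X.Met Φ) (hP : d.B.Met P) (area : Integrable (fun b => d.B.D.levi P b 1) d.B.D.μ)
    (le : ∀ p ξ, d.B.D.levi P (p.res d.T.inc) (fun i => ξ (Sum.inl i)) ≤ d.T.X.D.levi Φ p ξ)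
    (yA : ∀ p ξ, |d.T.X.D.levi (d.yy f) p ξ| ≤ 1 * d.T.X.D.levi Φ p ξ) (i : Fin d.r) :
    ∃ W, d.T.X.D.HH Φ d.ph W ∧
      ∫ p, d.T.X.D.levi (d.yy f) p (W p) * Real.exp (-d.ph p) ∂d.T.X.D.μ = 0 ∧
      ∀ p, d.T.X.D.vd W (fun p => p (d.T.X.z (Sum.inl ()))) p = p (d.τ i) := by
  have := d.B.preconnected d.T.finB
  have R0 : (0 : ℝ) < (d.m - 1 : ℝ)⁻¹ := inv_pos.2 (by linarith [d.wt_m])
  have md : Md d.T.X.siz fun p => Real.exp (d.ph p) := d.sos_Bs.md_exp (Bs_pos hu) _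
  have hφ := psh_ph hu
  have sy := (wt_lists hu hf).1
  obtain ⟨κ, κ0, low⟩ := h.lowV hu f le_rfl
  obtain ⟨C, up⟩ := h.upV hu
  obtain ⟨W, hW, e⟩ := d.T.lift (τ := fun i p => p (d.τ i)) (fun i => d.T.X.hol _) hΦ.pos hΦ.cut hφ
    (hΦ.cr hφ md) (hΦ.finHH hφ.1.cont md) sy (d.yy_nonneg f) yA hP.pos hP.cut area le R0
    (satV hu hf le_rfl) ⟨κ, κ0, d.B.D.ae_of_gen low⟩ ⟨C, .of_forall up⟩ (Pi.single i 1)
  exact ⟨W, hW.1, hW.q sy, fun p => by simp [d.T.vd_t, e, Pi.single_apply]⟩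

/-- BLOCK A: the metric, the field and its invariance data -/
theorem exists_tan' (d : Dat Unit K ν M) (h : d.Const) {i0 : Fin d.r} (hu : IsUnit (d.τ i0))
    {I : Type} [Fintype I] {f : I → ν → M} (hf : ∀ i l, f i l ∈ d.T.X.O) {α : Type} [Fintype α]
    {w : α → Pt d.T.X.O → ℝ} (hw : ∀ a, d.T.X.Sos (w a)) (w0 : ∀ a p, 0 < w a p) :
    ∃ (Φ : Pt d.T.X.O → ℝ) (P : Pt d.B.O → ℝ) (v : Derivation ℂ M M) (E : ℝ),
      d.T.X.Met Φ ∧ d.B.Met P ∧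
      (∀ a p ξ, d.T.X.D.levi (fun p => Real.log (w a p)) p ξ ≤ d.T.X.D.levi Φ p ξ) ∧
      (∀ j, v (d.T.X.z j) ∈ d.T.X.O) ∧ v (algebraMap K M (d.B.z ())) = 1 ∧
      d.T.toRel.Tan d.chi (d.yy f) Φ (fun p => d.fs (p.res d.T.inc)) (d.T.X.fld v) P E ∧
      (∀ p, d.T.X.D.levi (fun p => Real.log (d.Bs p)) p (d.T.X.fld v p) = 0) ∧
      (∀ i, d.T.X.D.HH Φ d.ph fun p => p (d.τ i) • d.T.X.fld v p) ∧
      ∀ i j, (d.τ i : M) * v (d.τ j) = d.τ j * v (d.τ i) := by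
  classical
  obtain ⟨sy, u, us, u1, -, uL⟩ := wt_lists hu hf
  have t0 : ∀ b : Pt d.B.O, 0 < 1 + ‖b (d.B.z ())‖ ^ 2 := fun _ => by positivity
  obtain ⟨Φ, P, hΦ, hP, area, le, dom⟩ := d.T.metric (α := α ⊕ Option (Fin 3))
    (w := Sum.elim w fun o => o.elim (fun p => 1 + ‖p.res d.T.inc (d.B.z ())‖ ^ 2) u)
    (by rintro (a | _ | j); exacts [hw a, d.T.sos_res d.B.sos_t, us j])
    (by rintro (a | _ | j) p; exacts [w0 a p, t0 _, one_pos.trans_le (u1 j p)])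
  have yA : ∀ p ξ, |d.T.X.D.levi (d.yy f) p ξ| ≤ 1 * d.T.X.D.levi Φ p ξ := fun p ξ => by
    rw [one_mul]
    exact (uL p ξ _ fun j => dom (.inr (some j)) p ξ).2.2
  have m3 := d.wt_m
  have sχ : d.T.X.D.Sm d.chi := d.chi_eq ▸ (RD.sm_const _).mul (psh_logB hu).1
  have md : Md d.T.X.siz fun p => Real.exp (d.chi p) := d.chi_eq ▸ d.sos_Bs.md_exp (Bs_pos hu) _
  have sP := (d.B.sos_t.psh t0).1
  have ac := d.fs_cont.comp (Pt.continuous_res d.T.inc)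
  have key := RD.exists_field (D := d.T.X.D) (Φ := Φ) (y := d.yy f)
    (P := fun p => Real.log (1 + ‖p.res d.T.inc (d.B.z ())‖ ^ 2))
    (α := fun p => d.fs (p.res d.T.inc)) (t := fun p => p (d.T.X.z (Sum.inl ())))
    (s := fun i p => p (d.τ i)) (c := (d.m - 1) / d.m) (A := 1) hΦ.pos hΦ.cut
    (fun i => d.T.X.hol _) (fun p => ⟨i0, (hu.map p).ne_zero⟩)
    (div_pos (by linarith) (by linarith)) sy (d.yy_nonneg f) yA (d.T.X.hol _) (d.T.sm_res sP)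
    ac (.of_forall fun _ => d.fs_pos _)
    (fun p ξ ζ => by rw [d.T.gp_res sP, d.B.levi_t, d.T.vd_t, d.T.vd_t, fs])
    (fun p ξ => by rw [one_mul]; exact dom (.inr none) p ξ)
    (by simpa only [d.chi_eq] using h.fs_int hu)
    (fun W hW _ => h.resV hu hf hP le hW) (h.liftV hu hf hΦ hP area le yA)
  simp only [← congrFun d.chi_eq] at key
  obtain ⟨W, W1, W2, W3, W4, W5, W6, W7, W8, W9, E, E0, star⟩ := key
  obtain ⟨v, hv, rfl⟩ := hΦ.der sχ.cont md W1 W2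
  have rg : ∀ (p : Pt d.T.X.O) j, p.Reg (v (d.T.X.z j)) := fun p j => p.reg_coe ⟨_, hv j⟩
  have vm : ∀ a : d.T.X.O, v a ∈ d.T.X.O := fun a => Cht.der_mem_of hv a.2
  refine ⟨Φ, P, v, E, hΦ, hP, fun a => dom (.inl a), hv, ?_,
    ⟨sχ, W3, fun p => (d.T.vd_t _ p).symm.trans (W4 p), sy, d.yy_nonneg f, W8, W9, hΦ.pos.psh, W2,
      hP.exh, hP.nonneg, fun g => ?_, ⟨1, fun p ξ => by rw [one_mul]; exact le p ξ⟩, ?_, ?_,
      ac.measurable, fun _ => (d.fs_pos _).le, h.fs_int hu, E0, star⟩, W6, W7, fun i j =>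
    Cht.eq_of_ev (mul_mem (d.τ i).2 (vm _)) (mul_mem (d.τ j).2 (vm _)) fun p => ?_⟩
  · rw [← d.T.inc_eq, ← d.T.zy]
    exact Cht.eq_of_ev (hv _) (one_mem _) fun p => by rw [← Cht.vd_fld (rg p), W4, p.ev_one]
  · obtain ⟨c, c0, hc⟩ := d.B.md g
    exact ⟨c, c0, fun b => (hc b).trans (Real.exp_le_exp.2 (by nlinarith [hP.siz b]))⟩
  · simp only [fld_exp hu]
    exact h.mass_low.imp fun _ h => h.imp_right .of_forall
  · obtain ⟨C, -, hC⟩ := h.tail hu f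
    simp only [fld_exp hu]
    exact ⟨1 * C, (d.B.D.ae_of_gen hC).mono fun b hb => hb _ 1 zero_le_one fun p => by
      linarith [Real.add_one_le_exp (d.yy f p.1)]⟩
  · have := W5 i j p
    rw [Cht.vd_fld (rg p), Cht.vd_fld (rg p)] at this
    have r : ∀ a : d.T.X.O, p.Reg (v a) := fun a => p.reg_coe ⟨_, vm a⟩
    rw [(p.ev_mul (p.reg_coe _) (r _)).2, (p.ev_mul (p.reg_coe _) (r _)).2, p.ev_coe, p.ev_coe, this]

theorem exists_tan (d : Dat Unit K ν M) (h : d.Const) {i0 : Fin d.r} (hu : IsUnit (d.τ i0))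
    {I : Type} [Fintype I] {f : I → ν → M} (hf : ∀ i l, f i l ∈ d.T.X.O) {α : Type} [Fintype α]
    {w : α → Pt d.T.X.O → ℝ} (hw : ∀ a, d.T.X.Sos (w a)) (w0 : ∀ a p, 0 < w a p) :
    ∃ (Φ : Pt d.T.X.O → ℝ) (P : Pt d.B.O → ℝ) (v : Derivation ℂ M M) (E : ℝ),
      d.T.X.Met Φ ∧ d.B.Met P ∧
      (∀ a p ξ, d.T.X.D.levi (fun p => Real.log (w a p)) p ξ ≤ d.T.X.D.levi Φ p ξ) ∧
      (∀ j, v (d.T.X.z j) ∈ d.T.X.O) ∧ v (algebraMap K M (d.B.z ())) = 1 ∧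
      d.T.toRel.Tan d.chi (d.yy f) Φ (fun p => d.fs (p.res d.T.inc)) (d.T.X.fld v) P E ∧
      (∀ p, d.T.X.D.levi (fun p => Real.log (d.Bs p)) p (d.T.X.fld v p) = 0) ∧
      ∀ i, d.T.X.D.L2 Φ d.ph fun p => p (d.τ i) • d.T.X.fld v p :=
  let ⟨Φ, P, v, E, h1, h2, h3, h4, h5, h6, h7, h8, _⟩ := d.exists_tan' h hu hf hw w0
  ⟨Φ, P, v, E, h1, h2, h3, h4, h5, h6, h7, fun i => (h8 i).l2⟩

end Dat

end Pool.Agent.Lib.MP_5c318e_ag
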