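import Pool.Agent.Lib.MP_5c318e_ag.Ar.Wt
import Pool.Agent.Lib.MP_5c318e_ag.Bk.CoefW

/-! Square integrable holomorphic functions for the weights of a set-up; tails and moments of `y`. -/

set_option autoImplicit false
set_option linter.unusedSectionVars false

namespace Pool.Agent.Lib.MP_5c318e_ag

open MeasureTheory Set Filter Topology Matrix
open scoped ENNReal

variable {δ ν K M : Type} [Fintype δ] [DecidableEq δ] [Fintype ν] [DecidableEq ν]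
  [Field K] [Algebra ℂ K] [Field M] [Algebra ℂ M] [Algebra K M] [IsScalarTower ℂ K M]

namespace Dat

variable {d : Dat δ K ν M} {I : Type} [Fintype I] {i0 : Fin d.r} {f : I → ν → M}

variable (d) in
theorem wt_ind (b : Pt d.B.O) (a : Fin d.r → ℂ)
    (h : ∀ p : d.T.Fib b, ∑ i, a i * p.1 (d.τ i) = 0) : a = 0 := by
  obtain ⟨u, -, hl⟩ := d.low
  have h0 : N.nN (d.μ b) (d.f b) (2 / d.m) a = 0 := by
    rw [N.nN, lintegral_congr (g := fun _ => 0), lintegral_zero]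
    intro p
    rw [show a ⬝ᵥ d.f b p = 0 from h p, enorm_zero, ENNReal.zero_rpow_of_pos d.bas_p]
  have := hl b a
  rw [h0, mul_zero, nonpos_iff_eq_zero, ENNReal.rpow_eq_zero_iff_of_pos d.bas_p] at this
  simpa using this

theorem goodW (hu : IsUnit (d.τ i0)) (hf : ∀ i l, f i l ∈ d.T.X.O) {R : ℝ}
    (hR : (d.m - 1 : ℝ)⁻¹ ≤ R) :
    d.T.GoodW d.m fun p => ENNReal.ofReal (Real.exp (-(d.ph p + d.yy f p / R))) := by
  have m1 : (0 : ℝ) < d.m - 1 := by linarith [d.wt_m]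
  refine d.T.goodW_fs (by have := d.hm; omega)
    (fun i => (d.span _).2 (Submodule.subset_span (mem_range_self i))) hf
    ⟨1, ENNReal.one_ne_top, .of_forall fun p => ?_⟩
  have hS := add_pos_of_pos_of_nonneg (Bs_pos hu p) (d.Vm_nonneg f p)
  refine (ENNReal.ofReal_rpow_of_pos hS).trans_le ?_
  rw [one_mul, ← exp_wt hu]
  have : d.yy f p / R ≤ (d.m - 1) * d.yy f p := by
    rw [div_eq_inv_mul]
    exact mul_le_mul_of_nonneg_right (inv_le_of_inv_le₀ m1 hR) (d.yy_nonneg f _)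
  gcongr

/-- `sat` of `Rel.lift` -/
theorem satV (hu : IsUnit (d.τ i0)) (hf : ∀ i l, f i l ∈ d.T.X.O) {R : ℝ}
    (hR : (d.m - 1 : ℝ)⁻¹ ≤ R) (F : Pt d.T.X.O → ℂ) (w : Pt d.B.O → ℝ) (hF : d.T.X.D.Hol F)
    (wc : Continuous w) (w0 : ∀ b, 0 < w b)
    (h : Integrable (fun p => ‖F p‖ ^ 2 * Real.exp (-(d.ph p + d.yy f p / R)) * w (p.res d.T.inc))
      d.T.X.D.μ) : ∃ c : Fin d.r → Pt d.B.O → ℂ, (∀ i, d.B.D.Hol (c i)) ∧
        ∀ p, F p = ∑ i, c i (p.res d.T.inc) * p (d.τ i) :=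
  d.T.coefR (by have := d.hm; omega) (fun φ => (d.span φ).1) d.wt_ind
    (ψ := fun p => d.ph p + d.yy f p / R)
    ((psh_ph hu).1.cont.add ((wt_lists hu hf).1.cont.div_const R)) (goodW hu hf hR) F w hF wc w0 h

/-- tails and moments: a function below `A exp (y - L)` -/
theorem Const.tail (h : d.Const) (hu : IsUnit (d.τ i0)) (f : I → ν → M) :
    ∃ C : ℝ, 0 ≤ C ∧ ∀ᶠ b in d.B.D.gen, ∀ (g : d.T.Fib b → ℝ) (A : ℝ), 0 ≤ A →
      (∀ p, g p ≤ A * Real.exp (d.yy f p.1)) →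
      ∫⁻ p, ENNReal.ofReal (g p * d.Bs p.1 ^ (d.m : ℝ)⁻¹) ∂d.μ b ≤ ENNReal.ofReal (A * C) := by
  obtain ⟨C, hC, h1⟩ := h.deg_exp hu f
  refine ⟨C.toReal, ENNReal.toReal_nonneg, h1.mono fun b hb g A A0 hg => ?_⟩
  rw [ENNReal.ofReal_mul A0, ENNReal.ofReal_toReal hC]
  refine le_trans ?_ (mul_le_mul_right hb _)
  rw [← lintegral_const_mul' _ _ ENNReal.ofReal_ne_top]
  refine lintegral_mono fun p => ?_
  rw [← ENNReal.ofReal_mul A0, ← mul_assoc]
  exact ENNReal.ofReal_le_ofReal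
    (mul_le_mul_of_nonneg_right (hg p) (Real.rpow_nonneg (d.Bs_nonneg _) _))

/-- the fibres have mass bounded below -/
theorem Const.mass_low (h : d.Const) : ∃ c : ℝ, 0 < c ∧ ∀ b,
    ENNReal.ofReal c ≤ ∫⁻ p, ENNReal.ofReal (d.Bs p.1 ^ (d.m : ℝ)⁻¹) ∂d.μ b := by
  rcases isEmpty_or_nonempty (Pt d.B.O) with h0 | ⟨⟨b0⟩⟩
  · exact ⟨1, one_pos, fun b => h0.elim b⟩
  let j : Fin d.r := ⟨0, d.hr⟩
  have h0 : N.nN (d.μ b0) (d.f b0) (2 / d.m) (Pi.single j 1) ≠ 0 := fun e => by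
    obtain ⟨u, -, hl⟩ := d.low
    have := hl b0 (Pi.single j 1)
    rw [e, mul_zero, nonpos_iff_eq_zero, ENNReal.rpow_eq_zero_iff_of_pos d.bas_p] at this
    simp at this
  refine ⟨_, ENNReal.toReal_pos h0 (wt_fin _ _), fun b => ?_⟩
  rw [ENNReal.ofReal_toReal (wt_fin _ _), h.nN b0 b]
  simp only [N.nN, single_dotProduct, one_mul]
  refine lintegral_mono fun p => ?_
  rw [← ofReal_norm, ENNReal.ofReal_rpow_of_nonneg (norm_nonneg _) d.bas_p.le, div_eq_mul_inv,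
    Real.rpow_mul (norm_nonneg _), Real.rpow_two]
  exact ENNReal.ofReal_le_ofReal (Real.rpow_le_rpow (sq_nonneg _) (d.le_Bs j p.1) (by positivity))

end Dat

end Pool.Agent.Lib.MP_5c318e_ag
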