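import Pool.Agent.Lib.MP_5c318e_ag.C.Siz
import Pool.Agent.Lib.MP_5c318e_ag.RD.HCut

/-! Sums of squares of regular functions on a chart, their quotients, and Kaehler potentials that
dominate finitely many of them. -/

set_option autoImplicit false

namespace Pool.Agent.Lib.MP_5c318e_ag

open Set Filter Topology

variable {ι F : Type} [Fintype ι] [DecidableEq ι] [Field F] [Algebra ℂ F]

/-- a finite sum of squares of absolute values of regular functions -/
def Cht.Sos (c : Cht ι F) (u : Pt c.O → ℝ) : Prop :=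
  ∃ (n : ℕ) (g : Fin n → c.O), ∀ p, u p = ∑ i, ‖p (g i)‖ ^ 2

/-- a quotient of sums of squares with denominator at least one -/
def Cht.SosQ (c : Cht ι F) (u : Pt c.O → ℝ) : Prop :=
  ∃ a b, c.Sos a ∧ c.Sos b ∧ ∀ p, 1 ≤ b p ∧ u p = a p / b p

namespace Cht

variable {c : Cht ι F} {u v : Pt c.O → ℝ}

theorem sos_fin {κ : Type} [Fintype κ] (g : κ → c.O) : c.Sos fun p => ∑ k, ‖p (g k)‖ ^ 2 :=
  ⟨_, g ∘ (Fintype.equivFin κ).symm, fun p =>
    ((Fintype.equivFin κ).symm.sum_comp fun k => ‖p (g k)‖ ^ 2).symm⟩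

theorem Sos.congr (h : c.Sos u) (e : ∀ p, v p = u p) : c.Sos v := (funext e : v = u) ▸ h

theorem sos_sq (a : c.O) : c.Sos fun p => ‖p a‖ ^ 2 := ⟨1, fun _ => a, fun p => by simp⟩

theorem sos_ev {a : F} (h : a ∈ c.O) : c.Sos fun p => ‖p.ev a‖ ^ 2 :=
  (sos_sq ⟨a, h⟩).congr fun p => by rw [p.ev_of_mem h]

theorem sos_const {r : ℝ} (h : 0 ≤ r) : c.Sos fun _ => r :=
  (sos_sq (algebraMap ℂ c.O (√r : ℝ))).congr fun p => by
    rw [Pt.map_alg, Complex.norm_real, Real.norm_eq_abs, sq_abs, Real.sq_sqrt h]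

theorem Sos.nonneg (h : c.Sos u) (p : Pt c.O) : 0 ≤ u p := by
  obtain ⟨n, g, e⟩ := h
  rw [e]; positivity

theorem Sos.add (h : c.Sos u) (h' : c.Sos v) : c.Sos fun p => u p + v p := by
  obtain ⟨n, g, e⟩ := h
  obtain ⟨n', g', e'⟩ := h'
  exact (sos_fin (Sum.elim g g')).congr fun p => by simp [e, e']

theorem Sos.mul (h : c.Sos u) (h' : c.Sos v) : c.Sos fun p => u p * v p := by
  obtain ⟨n, g, e⟩ := h
  obtain ⟨n', g', e'⟩ := h'
  exact (sos_fin fun k : Fin n × Fin n' => g k.1 * g' k.2).congr fun p => by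
    simp only [e, e', Fintype.sum_prod_type, map_mul, norm_mul, mul_pow, Finset.sum_mul_sum]

theorem Sos.pow (h : c.Sos u) (n : ℕ) : c.Sos fun p => u p ^ n := by
  induction n with
  | zero => simpa using sos_const zero_le_one
  | succ n ih => simpa only [pow_succ] using ih.mul h

theorem sos_sum {α : Type*} (s : Finset α) {w : α → Pt c.O → ℝ} (h : ∀ a ∈ s, c.Sos (w a)) :
    c.Sos fun p => ∑ a ∈ s, w a p := by
  classical
  induction s using Finset.induction_on with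
  | empty => simpa using sos_const le_rfl
  | insert a s ha ih =>
    simpa only [Finset.sum_insert ha] using (h a (Finset.mem_insert_self _ _)).add
      (ih fun b hb => h b (Finset.mem_insert_of_mem hb))

theorem sos_prod {α : Type*} (s : Finset α) {w : α → Pt c.O → ℝ} (h : ∀ a ∈ s, c.Sos (w a)) :
    c.Sos fun p => ∏ a ∈ s, w a p := by
  classical
  induction s using Finset.induction_on with
  | empty => simpa using sos_const zero_le_one
  | insert a s ha ih =>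
    simpa only [Finset.prod_insert ha] using (h a (Finset.mem_insert_self _ _)).mul
      (ih fun b hb => h b (Finset.mem_insert_of_mem hb))

theorem Sos.sm (h : c.Sos u) : c.D.Sm u := by
  obtain ⟨n, g, e⟩ := h
  rw [(funext e : u = _)]
  exact RD.sm_sum _ fun i _ => (c.hol (g i)).sm.normSq

theorem Sos.md (h : c.Sos u) : Md c.siz u := by
  obtain ⟨n, g, e⟩ := h
  rw [(funext e : u = _)]
  exact Md.sum c.siz_nonneg _ fun i _ => (c.md (g i)).pow c.siz_nonneg (fun _ => norm_nonneg _) 2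

theorem Sos.psh (h : c.Sos u) (h0 : ∀ p, 0 < u p) : c.D.Psh fun p => Real.log (u p) := by
  refine ⟨h.sm.comp_at fun p => Real.contDiffAt_log.2 (h0 p).ne', fun p ξ => ?_⟩
  obtain ⟨n, g, e⟩ := h
  have := MP_9ff3e7_ag.F.levi_log_sos_nonneg Finset.univ (f := fun a z => c.D.sec p z (g a))
    (fun a _ => Hyp.hol_ana (c.hol (g a)) p) le_rfl (by
      rw [add_zero, c.D.sec_self, ← e]; exact h0 p) ξ
  simp only [add_zero, ← e] at this
  exact this

/-- the absolute value of a unit is pluriharmonic -/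
theorem levi_unit {a a' : c.O} (h : a * a' = 1) (p : Pt c.O) (ξ : ι → ℂ) :
    c.D.levi (fun p => Real.log (‖p a‖ ^ 2)) p ξ = 0 := by
  have e : ∀ p : Pt c.O, ‖p a‖ ^ 2 * ‖p a'‖ ^ 2 = 1 := fun p => by
    rw [← mul_pow, ← norm_mul, ← map_mul, h, map_one, norm_one, one_pow]
  have n1 : ∀ p : Pt c.O, 0 < ‖p a‖ ^ 2 := fun p =>
    (sq_nonneg _).lt_of_ne' (left_ne_zero_of_mul_eq_one (e p))
  have n2 : ∀ p : Pt c.O, 0 < ‖p a'‖ ^ 2 := fun p =>
    (sq_nonneg _).lt_of_ne' (right_ne_zero_of_mul_eq_one (e p))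
  have h1 := (sos_sq a).psh n1
  have h2 := (sos_sq a').psh n2
  have h3 := RD.levi_add h1.1 h2.1 p ξ
  simp only [← Real.log_mul (n1 _).ne' (n2 _).ne', e, Real.log_one] at h3
  have h4 : c.D.levi (fun _ => (0 : ℝ)) p ξ = 0 := by simp [RD.levi, MP_9ff3e7_ag.F.levi]
  linarith [h1.2 p ξ, h2.2 p ξ]

theorem Sos.q (h : c.Sos u) : c.SosQ u :=
  ⟨u, fun _ => 1, h, sos_const zero_le_one, fun _ => ⟨le_rfl, (div_one _).symm⟩⟩

theorem Sos.div (h : c.Sos u) (h' : c.Sos v) (h1 : ∀ p, 1 ≤ v p) : c.SosQ fun p => u p / v p :=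
  ⟨u, v, h, h', fun p => ⟨h1 p, rfl⟩⟩

theorem SosQ.congr (h : c.SosQ u) (e : ∀ p, v p = u p) : c.SosQ v := (funext e : v = u) ▸ h

theorem SosQ.add (h : c.SosQ u) (h' : c.SosQ v) : c.SosQ fun p => u p + v p := by
  obtain ⟨a, b, ha, hb, e⟩ := h
  obtain ⟨a', b', ha', hb', e'⟩ := h'
  refine ⟨_, _, (ha.mul hb').add (hb.mul ha'), hb.mul hb', fun p =>
    ⟨one_le_mul_of_one_le_of_one_le (e p).1 (e' p).1, ?_⟩⟩
  beta_reduce
  rw [(e p).2, (e' p).2, div_add_div _ _ (by linarith [(e p).1]) (by linarith [(e' p).1])]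

theorem SosQ.mul (h : c.SosQ u) (h' : c.SosQ v) : c.SosQ fun p => u p * v p := by
  obtain ⟨a, b, ha, hb, e⟩ := h
  obtain ⟨a', b', ha', hb', e'⟩ := h'
  refine ⟨_, _, ha.mul ha', hb.mul hb', fun p =>
    ⟨one_le_mul_of_one_le_of_one_le (e p).1 (e' p).1, ?_⟩⟩
  beta_reduce
  rw [(e p).2, (e' p).2, div_mul_div_comm]

theorem SosQ.pow (h : c.SosQ u) (n : ℕ) : c.SosQ fun p => u p ^ n := by
  induction n with
  | zero => simpa using (sos_const zero_le_one).q
  | succ n ih => simpa only [pow_succ] using ih.mul h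

theorem sosQ_sum {α : Type*} (s : Finset α) {w : α → Pt c.O → ℝ} (h : ∀ a ∈ s, c.SosQ (w a)) :
    c.SosQ fun p => ∑ a ∈ s, w a p := by
  classical
  induction s using Finset.induction_on with
  | empty => simpa using (sos_const le_rfl).q
  | insert a s ha ih =>
    simpa only [Finset.sum_insert ha] using (h a (Finset.mem_insert_self _ _)).add
      (ih fun b hb => h b (Finset.mem_insert_of_mem hb))

theorem SosQ.sm (h : c.SosQ u) : c.D.Sm u := by
  obtain ⟨a, b, ha, hb, e⟩ := h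
  rw [(funext fun p => (e p).2.trans (div_eq_mul_inv _ _) : u = _)]
  exact ha.sm.mul (hb.sm.comp_at fun p => contDiffAt_inv ℝ (by linarith [(e p).1]))

/-- the logarithm of a quotient that is at least one -/
theorem SosQ.log (h : c.SosQ u) (h1 : ∀ p, 1 ≤ u p) : ∃ a b, c.Sos a ∧ c.Sos b ∧
    ∀ p, 1 ≤ b p ∧ b p ≤ a p ∧ Real.log (u p) = Real.log (a p) - Real.log (b p) := by
  obtain ⟨a, b, ha, hb, e⟩ := h
  refine ⟨a, b, ha, hb, fun p => ?_⟩
  have b0 : 0 < b p := one_pos.trans_le (e p).1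
  have h2 : b p ≤ a p := (one_le_div b0).1 ((e p).2 ▸ h1 p)
  exact ⟨(e p).1, h2, by rw [(e p).2, Real.log_div (b0.trans_le h2).ne' b0.ne']⟩

/-- a proper Kaehler potential `log Z` that dominates finitely many sums of squares -/
theorem exists_pot (c : Cht ι F) {α : Type} [Fintype α] {w : α → Pt c.O → ℝ}
    (hw : ∀ a, c.Sos (w a)) (h1 : ∀ a p, 1 ≤ w a p) (r : ℝ) :
    ∃ Z : Pt c.O → ℝ, c.Sos Z ∧ (∀ p, 1 ≤ Z p ∧ r ≤ Real.log (Z p) ∧ c.siz p ≤ Real.log (Z p)) ∧
      c.D.Pos (fun p => Real.log (Z p)) ∧ (∀ t, IsCompact {p | Real.log (Z p) ≤ t}) ∧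
      ∀ a p, w a p ≤ Z p ∧ ∀ ξ, c.D.levi (fun p => Real.log (w a p)) p ξ ≤
        c.D.levi (fun p => Real.log (Z p)) p ξ := by
  classical
  have s0 : c.Sos fun p => Hyp.nsq (c.D.π p) := ((sos_fin c.z).add (sos_const zero_le_one)).congr
    fun p => by simp only [Hyp.nsq, c.π_eq]
  have s1 : c.Sos fun p => Hyp.nsq (c.emb p) :=
    (sos_fin fun a : c.gens => (a : c.O)).add (sos_const zero_le_one)
  let W : Option (Option (Option α)) → Pt c.O → ℝ := fun o => o.elim (fun _ => Real.exp |r|)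
    fun o => o.elim (fun p => Hyp.nsq (c.D.π p)) fun o => o.elim (fun p => Hyp.nsq (c.emb p)) w
  have hW : ∀ o, c.Sos (W o) := by
    rintro (_ | _ | _ | a)
    exacts [sos_const (Real.exp_pos _).le, s0, s1, hw a]
  have W1 : ∀ o p, 1 ≤ W o p := by
    rintro (_ | _ | _ | a) p
    exacts [Real.one_le_exp (abs_nonneg r), Hyp.one_le_nsq _, Hyp.one_le_nsq _, h1 a p]
  have W0 : ∀ o p, 0 < W o p := fun o p => one_pos.trans_le (W1 o p)
  have hZ : c.Sos fun p => ∏ o, W o p := sos_prod _ fun o _ => hW o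
  have le : ∀ o p, W o p ≤ ∏ o, W o p := fun o p => by
    rw [← Finset.mul_prod_erase _ _ (Finset.mem_univ o)]
    exact le_mul_of_one_le_right (W0 o p).le (Finset.one_le_prod fun o _ => W1 o p)
  have lv : ∀ o p ξ, c.D.levi (fun p => Real.log (W o p)) p ξ ≤
      c.D.levi (fun p => Real.log (∏ o, W o p)) p ξ := fun o p ξ => by
    simp only [fun p => Real.log_prod (s := Finset.univ) (f := fun o => W o p) fun o _ => (W0 o p).ne']
    rw [RD.levi_sum _ fun o _ => ((hW o).psh (W0 o)).1]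
    exact Finset.single_le_sum (fun o _ => ((hW o).psh (W0 o)).2 p ξ) (Finset.mem_univ o)
  have Z1 : ∀ p, 1 ≤ ∏ o, W o p := fun p => (W1 none p).trans (le none p)
  have hs : ∀ p, c.siz p ≤ Real.log (∏ o, W o p) := fun p => by
    rw [c.siz_eq]
    exact Real.log_le_log (Hyp.nsq_pos _) (le (some (some none)) p)
  have ps := hZ.psh fun p => one_pos.trans_le (Z1 p)
  refine ⟨_, hZ, fun p => ⟨Z1 p, (le_abs_self r).trans ?_, hs p⟩,
    ⟨ps.1, fun p ξ h => lt_of_lt_of_le ?_ (lv (some none) p ξ)⟩,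
    fun t => (c.exh.2 t).of_isClosed_subset (isClosed_le ps.1.cont continuous_const)
      fun p hp => (hs p).trans hp, fun a p => ⟨le (some (some (some a))) p, lv (some (some (some a))) p⟩⟩
  · exact (Real.le_log_iff_exp_le (one_pos.trans_le (Z1 p))).2 (le none p)
  · exact (Hyp.levi_nsq_pos _ h).trans_eq (RD.levi_π (fun y => Real.log (Hyp.nsq y)) p ξ).symm

end Cht

namespace RD

open MeasureTheory

variable {S : Type} [TopologicalSpace S] [MeasurableSpace S] [BorelSpace S] [T2Space S]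
  [SigmaCompactSpace S] {D : RD ι S}

/-- `s + 1 / log s` is a complete Kaehler potential at bounded distance from `s` -/
theorem cut_bdd {s : S → ℝ} (hs : D.Pos s) (hp : ∀ c, IsCompact {x | s x ≤ c})
    (h3 : ∀ x, 3 ≤ s x) : D.Pos (fun x => s x + (Real.log (s x))⁻¹) ∧
      D.Cut (fun x => s x + (Real.log (s x))⁻¹) ∧
      (∀ x ξ, D.levi s x ξ ≤ 2 * D.levi (fun x => s x + (Real.log (s x))⁻¹) x ξ) ∧
      ∀ x, 0 ≤ (Real.log (s x))⁻¹ ∧ (Real.log (s x))⁻¹ ≤ 1 := by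
  have p : ∀ x, 0 < s x := fun x => by linarith [h3 x]
  have l1 : ∀ x, 1 ≤ Real.log (s x) := fun x => (Real.le_log_iff_exp_le (p x)).2
    (by linarith [Real.exp_one_lt_d9, h3 x])
  have l0 : ∀ x, 0 < Real.log (s x) := fun x => one_pos.trans_le (l1 x)
  have sl : D.Sm fun x => Real.log (s x) := hs.1.comp_at fun x => Real.contDiffAt_log.2 (p x).ne'
  have si : D.Sm fun x => (Real.log (s x))⁻¹ := sl.comp_at fun x => contDiffAt_inv ℝ (l0 x).ne'
  have sll : D.Sm fun x => Real.log (Real.log (s x)) :=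
    sl.comp_at fun x => Real.contDiffAt_log.2 (l0 x).ne'
  have key : ∀ x ξ, D.levi s x ξ / 2 +
      ‖D.dbar (fun y => (Real.log (Real.log (s y)) : ℂ)) x ξ‖ ^ 2 ≤
      D.levi (fun x => s x + (Real.log (s x))⁻¹) x ξ := fun x ξ => by
    have e1 : deriv (deriv fun r : ℝ => r⁻¹) (Real.log (s x)) = 2 * (Real.log (s x))⁻¹ ^ 3 := by
      rw [deriv_inv', deriv.fun_neg,
        ((hasDerivAt_pow 2 (Real.log (s x))).fun_inv (pow_ne_zero 2 (l0 x).ne')).deriv]
      have := (l0 x).ne'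
      field_simp
      norm_num [mul_comm]
    rw [levi_add hs.1 si, levi_comp (χ := fun r : ℝ => r⁻¹) sl x (contDiffAt_inv ℝ (l0 x).ne'),
      levi_comp (χ := Real.log) hs.1 x (Real.contDiffAt_log.2 (p x).ne'), e1,
      hc_dbar_comp sl x (Real.differentiableAt_log (l0 x).ne'),
      hc_dbar_comp hs.1 x (Real.differentiableAt_log (p x).ne'), Real.deriv_log', deriv_inv, deriv_inv]
    simp only [norm_mul, mul_pow, Complex.norm_real, Real.norm_eq_abs, sq_abs, ← inv_pow]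
    have a1 : (s x)⁻¹ ≤ 1 / 2 := by rw [← one_div]; exact one_div_le_one_div_of_le two_pos (by linarith [h3 x])
    have a2 : (Real.log (s x))⁻¹ ≤ 1 := inv_le_one_of_one_le₀ (l1 x)
    have a3 : 0 < (s x)⁻¹ := inv_pos.2 (p x)
    have a4 : 0 < (Real.log (s x))⁻¹ := inv_pos.2 (l0 x)
    have a5 := hs.hc_nn x ξ
    generalize (s x)⁻¹ = a, (Real.log (s x))⁻¹ = b, D.levi s x ξ = L,
      ‖D.dbar (fun y => (s y : ℂ)) x ξ‖ = N at *
    have a6 : b ^ 2 * a ≤ 1 / 2 := by nlinarith [pow_le_one₀ (n := 2) a4.le a2]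
    nlinarith [mul_le_mul_of_nonneg_right a6 a5, show 0 ≤ b ^ 3 * (a ^ 2 * N ^ 2) by positivity]
  have b : ∀ x ξ, D.levi s x ξ ≤ 2 * D.levi (fun x => s x + (Real.log (s x))⁻¹) x ξ := fun x ξ => by
    linarith [key x ξ, sq_nonneg ‖D.dbar (fun y => (Real.log (Real.log (s y)) : ℂ)) x ξ‖]
  refine ⟨⟨hs.1.add si, fun x ξ h => by linarith [hs.2 x ξ h, b x ξ]⟩,
    cut_of_grad' sll (fun c => ?_) one_pos fun x ξ => ?_, b,
    fun x => ⟨(inv_pos.2 (l0 x)).le, inv_le_one_of_one_le₀ (l1 x)⟩⟩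
  · convert hp (Real.exp (Real.exp c)) using 1
    exact Set.ext fun x => (Real.log_le_iff_le_exp (l0 x)).trans (Real.log_le_iff_le_exp (p x))
  · linarith [key x ξ, hs.hc_nn x ξ]

end RD

end Pool.Agent.Lib.MP_5c318e_ag
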