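import Pool.Agent.Lib.MP_5c318e_ag.Ar.Area
import Pool.Agent.Lib.MP_5c318e_ag.Ar.Sos
import Pool.Agent.Lib.MP_5c318e_ag.D.Shr
import Pool.Agent.Lib.MP_5c318e_ag.D.Bas
import Pool.Agent.Lib.MP_5c318e_ag.N.Auer
import Pool.Agent.Lib.MP_5c318e_ag.Va.VDefs

/-! The weights on the total chart of a set-up and their fibre integrals. -/

set_option autoImplicit false
set_option linter.unusedSectionVars false

namespace Pool.Agent.Lib.MP_5c318e_ag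

open MeasureTheory Set Filter Topology Matrix
open scoped ENNReal

variable {δ ν K M : Type} [Fintype δ] [DecidableEq δ] [Fintype ν] [DecidableEq ν]
  [Field K] [Algebra ℂ K] [Field M] [Algebra ℂ M] [Algebra K M] [IsScalarTower ℂ K M]

theorem Ar.prod_fin : ∫⁻ w : ν → ℂ, ENNReal.ofReal (1 / ∏ l, (1 + ‖w l‖ ^ 2) ^ 2) ≠ ⊤ := by
  have h0 : Integrable (fun z : ℂ => 1 / (1 + ‖z‖ ^ 2) ^ 2) := by
    refine (integrable_rpow_neg_one_add_norm_sq (E := ℂ) (μ := volume) (r := 4)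
      (by rw [Complex.finrank_real_complex]; norm_num)).congr (.of_forall fun z => ?_)
    beta_reduce
    rw [show (-4 / 2 : ℝ) = -((2 : ℕ) : ℝ) by norm_num, Real.rpow_neg (by positivity),
      Real.rpow_natCast, one_div]
  have h1 := (Integrable.fintype_prod (ι := ν) fun _ => h0).lintegral_lt_top
  simp only [one_div, Finset.prod_inv_distrib] at h1 ⊢
  exact h1.ne

/-- the product Fubini-Study volume of the fibres is bounded -/
theorem Rel.area_prod {B : Cht δ K} (T : Rel B ν M) (f : ν → M) :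
    ∃ C : ℝ≥0∞, C ≠ ⊤ ∧ ∀ᶠ b in B.D.gen, ∫⁻ p, ENNReal.ofReal (‖p.1.ev (Jac T.dx f)‖ ^ 2 /
      ∏ l, (1 + ‖p.1.ev (f l)‖ ^ 2) ^ 2) ∂(T.fib b).μ ≤ C := by
  obtain ⟨n, hn⟩ := T.area_gen f
  refine ⟨_, ENNReal.mul_ne_top (ENNReal.natCast_ne_top n) (Ar.prod_fin (ν := ν)),
    hn.mono fun b hb => le_trans (lintegral_mono fun p => ?_) (hb _ (by fun_prop))⟩
  rw [← ENNReal.ofReal_mul (by positivity), mul_one_div]

theorem Rel.jac_mem {B : Cht δ K} (T : Rel B ν M) {f : ν → M} (hf : ∀ l, f l ∈ T.X.O) :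
    Jac T.dx f ∈ T.X.O := by
  unfold Jac
  rw [det_apply']
  exact sum_mem fun σ _ => mul_mem (intCast_mem _ _) (prod_mem fun i _ => by
    rw [of_apply, T.dx_eq]; exact T.X.der_mem _ _ (hf _))

namespace Dat

variable (d : Dat δ K ν M)

/-- `B = ∑ |τ_i|²` -/
noncomputable def Bs (p : Pt d.T.X.O) : ℝ := ∑ i, ‖p (d.τ i)‖ ^ 2

/-- the weight `φ = ((m - 1) / m) log B` -/
noncomputable def ph (p : Pt d.T.X.O) : ℝ := (d.m - 1) / d.m * Real.log (∑ i, ‖p (d.τ i)‖ ^ 2)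

variable {I : Type} [Fintype I]

/-- the sum of the `m`-th powers of the Fubini-Study volumes of the frames `f i` -/
noncomputable def Vm (f : I → ν → M) (p : Pt d.T.X.O) : ℝ :=
  ∑ i, (‖p.ev (Jac d.T.dx (f i))‖ ^ 2 / ∏ l, (1 + ‖p.ev (f i l)‖ ^ 2) ^ 2) ^ d.m

/-- the function `y = (1 / m) log (1 + V / B)` -/
noncomputable def yy (f : I → ν → M) (p : Pt d.T.X.O) : ℝ :=
  (d.m : ℝ)⁻¹ * Real.log (1 + d.Vm f p / d.Bs p)

theorem wt_m : (3 : ℝ) ≤ d.m := by exact_mod_cast d.hm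

theorem sos_Bs : d.T.X.Sos d.Bs := Cht.sos_fin d.τ

theorem Bs_nonneg (p : Pt d.T.X.O) : 0 ≤ d.Bs p := d.sos_Bs.nonneg p

theorem le_Bs (i : Fin d.r) (p : Pt d.T.X.O) : ‖p (d.τ i)‖ ^ 2 ≤ d.Bs p :=
  Finset.single_le_sum (f := fun i => ‖p (d.τ i)‖ ^ 2) (fun _ _ => by positivity) (Finset.mem_univ i)

theorem Vm_nonneg (f : I → ν → M) (p : Pt d.T.X.O) : 0 ≤ d.Vm f p := by
  unfold Vm; positivity

theorem yy_nonneg (f : I → ν → M) (p : Pt d.T.X.O) : 0 ≤ d.yy f p :=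
  mul_nonneg (by positivity) (Real.log_nonneg
    (le_add_of_nonneg_right (div_nonneg (d.Vm_nonneg f p) (d.Bs_nonneg p))))

theorem meas_Bs : Measurable d.Bs := d.sos_Bs.sm.cont.measurable

theorem meas_Vm (f : I → ν → M) : Measurable (d.Vm f) := by
  have hm := fun φ : M => Pt.measurable_ev (A := d.T.X.O) φ
  unfold Vm; fun_prop

variable {d} {i0 : Fin d.r}

theorem Bs_pos (hu : IsUnit (d.τ i0)) (p : Pt d.T.X.O) : 0 < d.Bs p :=
  (pow_pos (norm_pos_iff.2 (hu.map p).ne_zero) 2).trans_le (d.le_Bs i0 p)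

theorem psh_logB (hu : IsUnit (d.τ i0)) : d.T.X.D.Psh fun p => Real.log (d.Bs p) :=
  d.sos_Bs.psh (Bs_pos hu)

theorem psh_ph (hu : IsUnit (d.τ i0)) : d.T.X.D.Psh d.ph :=
  ⟨(RD.sm_const _).mul (psh_logB hu).1, fun p ξ => (mul_nonneg (div_nonneg (by linarith [d.wt_m])
    (by positivity)) ((psh_logB hu).2 p ξ)).trans_eq (RD.levi_cmul _ (psh_logB hu).1 p ξ).symm⟩

/-- `B` is a sum of squares that is at least one, up to a unit -/
theorem Bs_unit (hu : IsUnit (d.τ i0)) : ∃ a, d.T.X.Sos a ∧ (∀ p, 1 ≤ a p) ∧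
    (∀ p, d.Bs p = ‖p (d.τ i0)‖ ^ 2 * a p) ∧ ∀ p ξ, d.T.X.D.levi (fun p => Real.log (d.Bs p)) p ξ =
      d.T.X.D.levi (fun p => Real.log (a p)) p ξ := by
  obtain ⟨t, ht⟩ := hu.exists_right_inv
  have e : ∀ p : Pt d.T.X.O, ‖p (d.τ i0)‖ ^ 2 * ‖p t‖ ^ 2 = 1 := fun p => by
    rw [← mul_pow, ← norm_mul, ← map_mul, ht, map_one, norm_one, one_pow]
  have n : ∀ p : Pt d.T.X.O, 0 < ‖p t‖ ^ 2 := fun p =>
    (sq_nonneg _).lt_of_ne' (right_ne_zero_of_mul_eq_one (e p))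
  refine ⟨_, d.sos_Bs.mul (Cht.sos_sq t), fun p => (e p).ge.trans
    (mul_le_mul_of_nonneg_right (d.le_Bs i0 p) (n p).le), fun p => ?_, fun p ξ => ?_⟩
  · linear_combination (-d.Bs p) * e p
  · simp only [fun p => Real.log_mul (Bs_pos hu p).ne' (n p).ne']
    rw [RD.levi_add (psh_logB hu).1 ((Cht.sos_sq t).psh n).1,
      Cht.levi_unit ((mul_comm _ _).trans ht), add_zero]

variable {f : I → ν → M}

theorem sosQ_Vm (hf : ∀ i l, f i l ∈ d.T.X.O) : d.T.X.SosQ (d.Vm f) :=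
  Cht.sosQ_sum _ fun i _ => ((Cht.sos_ev (d.T.jac_mem (hf i))).div
    (Cht.sos_prod _ fun l _ => ((Cht.sos_const zero_le_one).add (Cht.sos_ev (hf i l))).pow 2)
    fun _ => Finset.one_le_prod fun _ _ => one_le_pow₀ (le_add_of_nonneg_right (sq_nonneg _))).pow _

theorem yy_sos (hu : IsUnit (d.τ i0)) (hf : ∀ i l, f i l ∈ d.T.X.O) :
    ∃ a b, d.T.X.Sos a ∧ d.T.X.Sos b ∧ ∀ p, 1 ≤ b p ∧ b p ≤ a p ∧
      d.yy f p = (d.m : ℝ)⁻¹ * (Real.log (a p) - Real.log (b p)) := by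
  obtain ⟨a, ha, a1, e, -⟩ := Bs_unit hu
  obtain ⟨t, ht⟩ := hu.exists_right_inv
  have h1 : d.T.X.SosQ fun p => 1 + d.Vm f p / d.Bs p :=
    (Cht.sos_const zero_le_one).q.add (((sosQ_Vm hf).mul ((Cht.sos_sq t).div ha a1)).congr fun p => by
      have e1 : ‖p t‖ ^ 2 = (‖p (d.τ i0)‖ ^ 2)⁻¹ := eq_inv_of_mul_eq_one_right (by
        rw [← mul_pow, ← norm_mul, ← map_mul, ht, map_one, norm_one, one_pow])
      rw [e, e1, div_eq_mul_inv, div_eq_mul_inv, mul_inv])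
  obtain ⟨a, b, ha, hb, h⟩ := h1.log fun p =>
    le_add_of_nonneg_right (div_nonneg (d.Vm_nonneg f p) (d.Bs_nonneg p))
  exact ⟨a, b, ha, hb, fun p => ⟨(h p).1, (h p).2.1, by rw [yy, (h p).2.2]⟩⟩

/-- all that the metric has to know about `B` and `y`: three sums of squares -/
theorem wt_lists (hu : IsUnit (d.τ i0)) (hf : ∀ i l, f i l ∈ d.T.X.O) :
    d.T.X.D.Sm (d.yy f) ∧ ∃ w : Fin 3 → Pt d.T.X.O → ℝ, (∀ j, d.T.X.Sos (w j)) ∧ (∀ j p, 1 ≤ w j p) ∧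
      (∀ p, d.yy f p ≤ Real.log (w 1 p)) ∧ ∀ p ξ (L : ℝ),
        (∀ j, d.T.X.D.levi (fun p => Real.log (w j p)) p ξ ≤ L) →
        d.T.X.D.levi (fun p => Real.log (d.Bs p)) p ξ ≤ L ∧ d.T.X.D.levi d.ph p ξ ≤ L ∧
          |d.T.X.D.levi (d.yy f) p ξ| ≤ L := by
  obtain ⟨c, hc, c1, -, e⟩ := Bs_unit hu
  obtain ⟨a, b, ha, hb, h⟩ := yy_sos hu hf
  have a1 : ∀ p, 1 ≤ a p := fun p => (h p).1.trans (h p).2.1
  have pa := ha.psh fun p => one_pos.trans_le (a1 p)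
  have pb := hb.psh fun p => one_pos.trans_le (h p).1
  have ey : d.yy f = fun p => (d.m : ℝ)⁻¹ * (Real.log (a p) + (-1) * Real.log (b p)) :=
    funext fun p => by rw [(h p).2.2]; ring
  have sb : d.T.X.D.Sm fun p => (-1) * Real.log (b p) := (RD.sm_const _).mul pb.1
  have m0 : (0 : ℝ) < d.m := by linarith [d.wt_m]
  have m1 : (d.m : ℝ)⁻¹ ≤ 1 := inv_le_one_of_one_le₀ (by linarith [d.wt_m])
  have m2 := inv_pos.2 m0
  refine ⟨ey ▸ (RD.sm_const _).mul (pa.1.add sb), ![c, a, b], fun j => ?_, fun j => ?_,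
    fun p => ?_, fun p ξ L hL => ?_⟩
  · fin_cases j
    exacts [hc, ha, hb]
  · fin_cases j
    exacts [c1, a1, fun p => (h p).1]
  · have h1 := Real.log_nonneg (a1 p)
    have h2 := Real.log_nonneg (h p).1
    rw [(h p).2.2]
    change _ ≤ Real.log (a p)
    nlinarith
  · have h0 : d.T.X.D.levi (fun p => Real.log (d.Bs p)) p ξ ≤ L := (e p ξ).trans_le (hL 0)
    have h1 : d.T.X.D.levi (fun p => Real.log (a p)) p ξ ≤ L := hL 1
    have h2 : d.T.X.D.levi (fun p => Real.log (b p)) p ξ ≤ L := hL 2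
    have h3 := pa.2 p ξ
    have h4 := pb.2 p ξ
    have h5 := (psh_logB hu).2 p ξ
    refine ⟨h0, (RD.levi_cmul _ (psh_logB hu).1 p ξ).trans_le (le_trans
      (mul_le_of_le_one_left h5 ((div_le_one m0).2 (by linarith))) h0), ?_⟩
    rw [ey, RD.levi_cmul _ (pa.1.add sb), RD.levi_add pa.1 sb, RD.levi_cmul _ pb.1, abs_le]
    constructor <;> nlinarith

theorem exp_ph (hu : IsUnit (d.τ i0)) (p : Pt d.T.X.O) :
    Real.exp (-d.ph p) = d.Bs p ^ (-((d.m - 1) / d.m : ℝ)) := by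
  rw [Real.rpow_def_of_pos (Bs_pos hu p), ph, Bs]
  congr 1
  ring

theorem exp_mu (hu : IsUnit (d.τ i0)) (p : Pt d.T.X.O) :
    Real.exp (-(((d.m - 1) / d.m - 1 : ℝ) * Real.log (∑ i, ‖p (d.τ i)‖ ^ 2))) =
      d.Bs p ^ (d.m : ℝ)⁻¹ := by
  have : (d.m : ℝ) ≠ 0 := by linarith [d.wt_m]
  rw [Real.rpow_def_of_pos (Bs_pos hu p), Bs]
  congr 1
  field_simp
  ring

theorem log_yy (hu : IsUnit (d.τ i0)) (f : I → ν → M) (p : Pt d.T.X.O) :
    d.yy f p = (d.m : ℝ)⁻¹ * (Real.log (d.Bs p + d.Vm f p) - Real.log (d.Bs p)) := by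
  have h := Bs_pos hu p
  rw [yy, ← Real.log_div (add_pos_of_pos_of_nonneg h (d.Vm_nonneg f p)).ne' h.ne', add_div,
    div_self h.ne']

theorem exp_yy (hu : IsUnit (d.τ i0)) (f : I → ν → M) (p : Pt d.T.X.O) :
    Real.exp (d.yy f p) * d.Bs p ^ (d.m : ℝ)⁻¹ = (d.Bs p + d.Vm f p) ^ (d.m : ℝ)⁻¹ := by
  have h := Bs_pos hu p
  rw [Real.rpow_def_of_pos h, Real.rpow_def_of_pos (add_pos_of_pos_of_nonneg h (d.Vm_nonneg f p)),
    ← Real.exp_add, log_yy hu]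
  congr 1
  ring

theorem exp_wt (hu : IsUnit (d.τ i0)) (f : I → ν → M) (p : Pt d.T.X.O) :
    Real.exp (-(d.ph p + (d.m - 1) * d.yy f p)) = (d.Bs p + d.Vm f p) ^ (-((d.m - 1) / d.m : ℝ)) := by
  rw [Real.rpow_def_of_pos (add_pos_of_pos_of_nonneg (Bs_pos hu p) (d.Vm_nonneg f p)), log_yy hu,
    ph, Bs]
  congr 1
  ring

theorem wt_fin (b : Pt d.B.O) (a : Fin d.r → ℂ) : N.nN (d.μ b) (d.f b) (2 / d.m) a ≠ ⊤ :=
  let ⟨_, _, h⟩ := d.up
  N.nN_ne_top d.bas_p.le (ne_top_of_le_ne_top ENNReal.ofReal_ne_top (h b)) a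

theorem Const.nN (h : d.Const) (b b' : Pt d.B.O) (a : Fin d.r → ℂ) :
    N.nN (d.μ b) (d.f b) (2 / d.m) a = N.nN (d.μ b') (d.f b') (2 / d.m) a :=
  (ENNReal.toReal_eq_toReal_iff' (wt_fin _ _) (wt_fin _ _)).1 (h b b' a)

theorem rpow_sum_le {α : Type} [Fintype α] {x : α → ℝ} (hx : ∀ a, 0 ≤ x a) {s : ℝ} (s0 : 0 < s)
    (s1 : s ≤ 1) : (∑ a, x a) ^ s ≤ ∑ a, x a ^ s := by
  classical
  induction (Finset.univ : Finset α) using Finset.induction_on with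
  | empty => simp [s0.ne']
  | insert a t ha ih =>
    rw [Finset.sum_insert ha, Finset.sum_insert ha]
    exact (Real.rpow_add_le_add_rpow (hx a) (Finset.sum_nonneg fun _ _ => hx _) s0.le s1).trans
      (add_le_add le_rfl ih)

/-- the mass of the fibres is bounded -/
theorem Const.mass (h : d.Const) : ∃ C : ℝ≥0∞, C ≠ ⊤ ∧ ∀ b,
    ∫⁻ p, ENNReal.ofReal (d.Bs p.1 ^ (d.m : ℝ)⁻¹) ∂d.μ b ≤ C := by
  rcases isEmpty_or_nonempty (Pt d.B.O) with h0 | ⟨⟨b0⟩⟩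
  · exact ⟨0, ENNReal.zero_ne_top, fun b => h0.elim b⟩
  have m0 : (0 : ℝ) < d.m := by linarith [d.wt_m]
  refine ⟨∑ i, N.nN (d.μ b0) (d.f b0) (2 / d.m) (Pi.single i 1),
    ENNReal.sum_ne_top.2 fun i _ => wt_fin _ _, fun b => ?_⟩
  simp only [h.nN b0 b]
  simp only [N.nN, single_dotProduct, one_mul]
  rw [← lintegral_finsetSum _ (f := fun i x => ‖d.f b x i‖ₑ ^ (2 / d.m : ℝ)) fun i _ =>
    (((measurable_pi_apply i).comp (d.bas_mf b)).enorm.pow_const _)]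
  refine lintegral_mono fun p => (ENNReal.ofReal_le_ofReal (rpow_sum_le (fun _ => sq_nonneg _)
    (inv_pos.2 m0) (inv_le_one_of_one_le₀ (by linarith [d.wt_m])))).trans ?_
  rw [ENNReal.ofReal_sum_of_nonneg fun _ _ => by positivity]
  refine Finset.sum_le_sum fun i _ => le_of_eq ?_
  rw [← Real.rpow_natCast, ← Real.rpow_mul (norm_nonneg _), ← ofReal_norm,
    ENNReal.ofReal_rpow_of_nonneg (norm_nonneg _) d.bas_p.le, div_eq_mul_inv]
  rfl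

/-- DEG -/
theorem Const.deg (h : d.Const) (f : I → ν → M) : ∃ C : ℝ≥0∞, C ≠ ⊤ ∧ ∀ᶠ b in d.B.D.gen,
    ∫⁻ p, ENNReal.ofReal ((d.Bs p.1 + d.Vm f p.1) ^ (d.m : ℝ)⁻¹) ∂d.μ b ≤ C := by
  obtain ⟨C, hC, h1⟩ := h.mass
  choose C' hC' h2 using fun i => d.T.area_prod (f i)
  refine ⟨C + ∑ i, C' i, ENNReal.add_ne_top.2 ⟨hC, ENNReal.sum_ne_top.2 fun i _ => hC' i⟩, ?_⟩
  filter_upwards [eventually_all.2 h2] with b hb
  have hm : ∀ φ : M, Measurable fun p : d.T.Fib b => p.1.ev φ := fun φ =>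
    (Pt.measurable_ev φ).comp measurable_subtype_coe
  have m0 : (0 : ℝ) < d.m := by linarith [d.wt_m]
  have m1 : (d.m : ℝ)⁻¹ ≤ 1 := inv_le_one_of_one_le₀ (by linarith [d.wt_m])
  refine le_trans ?_ (add_le_add (h1 b) (Finset.sum_le_sum fun i _ => hb i))
  rw [← lintegral_finsetSum _ fun i _ => by fun_prop,
    ← lintegral_add_right _ (Finset.measurable_sum _ fun i _ => by fun_prop)]
  refine lintegral_mono fun p => ?_
  rw [← ENNReal.ofReal_sum_of_nonneg fun _ _ => by positivity, ← ENNReal.ofReal_add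
    (Real.rpow_nonneg (d.Bs_nonneg _) _) (by positivity)]
  refine ENNReal.ofReal_le_ofReal ((Real.rpow_add_le_add_rpow (d.Bs_nonneg _) (d.Vm_nonneg f _)
    (inv_pos.2 m0).le m1).trans (add_le_add le_rfl ((rpow_sum_le (fun _ => by positivity)
      (inv_pos.2 m0) m1).trans (Finset.sum_le_sum fun i _ => le_of_eq ?_))))
  exact Real.pow_rpow_inv_natCast (by positivity) (by have := d.hm; omega)

/-- DEG in the form `∫ exp (y) dμ ≤ C` -/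
theorem Const.deg_exp (h : d.Const) (hu : IsUnit (d.τ i0)) (f : I → ν → M) :
    ∃ C : ℝ≥0∞, C ≠ ⊤ ∧ ∀ᶠ b in d.B.D.gen,
      ∫⁻ p, ENNReal.ofReal (Real.exp (d.yy f p.1) * d.Bs p.1 ^ (d.m : ℝ)⁻¹) ∂d.μ b ≤ C := by
  simpa only [exp_yy hu] using h.deg f

/-- `up` of `Rel.lift` -/
theorem Const.upV (h : d.Const) (hu : IsUnit (d.τ i0)) : ∃ C : ℝ, ∀ b i,
    ∫⁻ p, ENNReal.ofReal (‖p.1 (d.τ i)‖ ^ 2 * Real.exp (-d.ph p.1)) ∂(d.T.fib b).μ ≤
      ENNReal.ofReal C := by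
  obtain ⟨C, hC, h1⟩ := h.mass
  refine ⟨C.toReal, fun b i => ?_⟩
  rw [ENNReal.ofReal_toReal hC]
  refine le_trans (lintegral_mono fun p => ENNReal.ofReal_le_ofReal ?_) (h1 b)
  have m0 : (d.m : ℝ) ≠ 0 := by linarith [d.wt_m]
  have hB := Bs_pos hu p.1
  rw [exp_ph hu, show (d.m : ℝ)⁻¹ = 1 + -((d.m - 1) / d.m) by field_simp; ring, Real.rpow_add hB,
    Real.rpow_one]
  exact mul_le_mul_of_nonneg_right (d.le_Bs i _) (Real.rpow_nonneg hB.le _)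

/-- `low` of `Rel.lift` -/
theorem Const.lowV (h : d.Const) (hu : IsUnit (d.τ i0)) (f : I → ν → M) {R : ℝ}
    (hR : (d.m - 1 : ℝ)⁻¹ ≤ R) : ∃ κ : ℝ, 0 < κ ∧ ∀ᶠ b in d.B.D.gen, ∀ a : Fin d.r → ℂ,
      ENNReal.ofReal (κ * ‖a‖ ^ 2) ≤ ∫⁻ p, ENNReal.ofReal (‖∑ i, a i * p.1 (d.τ i)‖ ^ 2 *
        Real.exp (-(d.ph p.1 + d.yy f p.1 / R))) ∂(d.T.fib b).μ := by
  rcases isEmpty_or_nonempty (Pt d.B.O) with h0 | ⟨⟨b0⟩⟩
  · exact ⟨1, one_pos, .of_forall fun b => h0.elim b⟩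
  obtain ⟨C, hC, h1⟩ := h.deg f
  obtain ⟨u, -, hl⟩ := d.low
  have m0 : (0 : ℝ) < d.m := by linarith [d.wt_m]
  have m1 : (0 : ℝ) < d.m - 1 := by linarith [d.wt_m]
  have q0 : (0 : ℝ) ≤ (d.m - 1) / d.m := by positivity
  have hA : (ENNReal.ofReal (u b0) * C ^ ((d.m - 1) / d.m : ℝ)) ^ (d.m : ℝ) ≠ ⊤ :=
    ENNReal.rpow_ne_top_of_nonneg m0.le (ENNReal.mul_ne_top ENNReal.ofReal_ne_top
      (ENNReal.rpow_ne_top_of_nonneg q0 hC))
  set A := (ENNReal.ofReal (u b0) * C ^ ((d.m - 1) / d.m : ℝ)) ^ (d.m : ℝ) with hAd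
  have A0 : 0 < A.toReal + 1 := by positivity
  refine ⟨(A.toReal + 1)⁻¹, inv_pos.2 A0, h1.mono fun b hb a => ?_⟩
  have mS : Measurable fun p : d.T.Fib b => d.Bs p.1 + d.Vm f p.1 :=
    (d.meas_Bs.add (d.meas_Vm f)).comp measurable_subtype_coe
  have mt : Measurable fun p : d.T.Fib b => ∑ i, a i * p.1 (d.τ i) :=
    Finset.measurable_sum _ fun i _ => ((measurable_pi_apply i).comp (d.bas_mf b)).const_mul _
  set J := ∫⁻ p, ENNReal.ofReal (‖∑ i, a i * p.1 (d.τ i)‖ ^ 2 *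
    (d.Bs p.1 + d.Vm f p.1) ^ (-((d.m - 1) / d.m : ℝ))) ∂(d.T.fib b).μ with hJ
  have k1 : N.nN (d.μ b) (d.f b) (2 / d.m) a ≤ J ^ (d.m : ℝ)⁻¹ * C ^ ((d.m - 1) / d.m : ℝ) := by
    refine le_trans (lintegral_mono fun p => le_of_eq ?_) ((ENNReal.lintegral_mul_norm_pow_le
      ((mt.norm.pow_const 2).mul (mS.pow_const (-((d.m - 1) / d.m : ℝ)))).ennreal_ofReal.aemeasurable
      (mS.pow_const (d.m : ℝ)⁻¹).ennreal_ofReal.aemeasurable (inv_pos.2 m0).le q0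
      (by field_simp; ring)).trans (mul_le_mul_right (ENNReal.rpow_le_rpow hb q0) _))
    have hS := add_pos_of_pos_of_nonneg (Bs_pos hu p.1) (d.Vm_nonneg f p.1)
    rw [Pi.mul_apply, ENNReal.ofReal_rpow_of_nonneg (by positivity) (inv_pos.2 m0).le,
      ENNReal.ofReal_rpow_of_nonneg (by positivity) q0, ← ENNReal.ofReal_mul (by positivity),
      Real.mul_rpow (by positivity) (by positivity), ← Real.rpow_mul hS.le, ← Real.rpow_mul hS.le,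
      mul_assoc, ← Real.rpow_add hS, show -((d.m - 1) / d.m : ℝ) * (d.m : ℝ)⁻¹ +
        (d.m : ℝ)⁻¹ * ((d.m - 1) / d.m) = 0 by ring, Real.rpow_zero, mul_one, ← Real.rpow_natCast,
      ← Real.rpow_mul (norm_nonneg _), ← ofReal_norm,
      ENNReal.ofReal_rpow_of_nonneg (norm_nonneg _) d.bas_p.le, div_eq_mul_inv]
    rfl
  have k2 : ‖a‖ₑ ^ (2 : ℝ) ≤ A * J := by
    have := ENNReal.rpow_le_rpow ((hl b0 a).trans
      (mul_le_mul_right ((h.nN b0 b a).trans_le k1) _)) m0.le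
    rwa [← ENNReal.rpow_mul, div_mul_cancel₀ _ m0.ne', mul_comm (J ^ _), ← mul_assoc,
      ENNReal.mul_rpow_of_nonneg _ _ m0.le, ← ENNReal.rpow_mul J, inv_mul_cancel₀ m0.ne',
      ENNReal.rpow_one] at this
  have k3 : ENNReal.ofReal ((A.toReal + 1)⁻¹ * ‖a‖ ^ 2) ≤ J := by
    rw [ENNReal.ofReal_mul (inv_pos.2 A0).le, ENNReal.ofReal_inv_of_pos A0,
      ENNReal.inv_mul_le_iff (ENNReal.ofReal_pos.2 A0).ne' ENNReal.ofReal_ne_top,
      ENNReal.ofReal_pow (norm_nonneg _), ofReal_norm, ← ENNReal.rpow_natCast]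
    refine k2.trans (mul_le_mul_left ?_ J)
    rw [ENNReal.ofReal_add ENNReal.toReal_nonneg zero_le_one, ENNReal.ofReal_toReal hA]
    exact le_self_add
  refine k3.trans (lintegral_mono fun p => ENNReal.ofReal_le_ofReal ?_)
  rw [← exp_wt hu]
  have R0 : 0 < R := (inv_pos.2 m1).trans_le hR
  have : d.yy f p.1 / R ≤ (d.m - 1) * d.yy f p.1 := by
    rw [div_eq_inv_mul]
    exact mul_le_mul_of_nonneg_right (inv_le_of_inv_le₀ m1 hR) (d.yy_nonneg f _)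
  gcongr

/-- a smaller chart with the same coordinates on which given functions are units -/
theorem shrinkX (d : Dat δ K ν M) (s : Finset K) (t : Finset M) :
    ∃ d' : Dat δ K ν M, d.Re d' ∧ (∀ i, (d'.B.z i : K) = d.B.z i) ∧
      (∀ a ∈ s, a ∈ d'.B.O ∧ a⁻¹ ∈ d'.B.O) ∧ ∀ a ∈ t, a ∈ d'.T.X.O ∧ a⁻¹ ∈ d'.T.X.O := by
  classical
  obtain ⟨B, T, hz, -, ht, S⟩ := d.T.shrink d.B.basis ∅ (t ∪ t.image (·⁻¹))
  obtain ⟨hJ, hη⟩ := Plu.change d.B.dual B.dual (Equiv.refl δ) d.plu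
  have h0 : (d.η : K) ≠ 0 := fun h => d.unit.ne_zero (Subtype.ext h)
  obtain ⟨d', h, L, h1, h2, h3, ⟨h4, h5⟩, h6⟩ := Dat.of_fam d.hK d.hM d.ac T d.hm d.hk d.hr
    (τ := fun i => Subalgebra.inclusion S.leX (d.τ i)) (Rel.dx_eq_of_x S.x_eq ▸ d.span) d.ind
    (div_ne_zero h0 (pow_ne_zero _ hJ)) hη s
  refine ⟨d', ⟨L.sub.trans S, h1, h2, h4, h5, Equiv.refl δ, ?_⟩, fun i => (L.z i).trans (hz i), h6,
    fun a ha => ⟨L.top.le (ht _ (Finset.mem_union_left _ ha)),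
      L.top.le (ht _ (Finset.mem_union_right _ (Finset.mem_image_of_mem _ ha)))⟩⟩
  simp only [L.z, h3, div_mul_cancel₀ _ (pow_ne_zero _ hJ)]

/-- a property of general points holds everywhere on a smaller chart -/
theorem shrink_gen (d : Dat δ K ν M) {P : Pt d.B.O → Prop} (hP : ∀ᶠ b in d.B.D.gen, P b) :
    ∃ (d' : Dat δ K ν M) (h : d.Re d'), (∀ i, (d'.B.z i : K) = d.B.z i) ∧ ∀ b, P (h.ρ b) := by
  obtain ⟨g, hg, H⟩ := hP
  obtain ⟨d', h, hz, hs⟩ := d.shrink d.B.basis {((MvPolynomial.aeval d.B.z g : d.B.O) : K)}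
  refine ⟨d', h, hz, fun b => H _ ?_⟩
  rw [← d.B.apply_aeval]
  have h0 : ((MvPolynomial.aeval d.B.z g : d.B.O) : K) ≠ 0 := fun e =>
    d.B.aeval_ne hg (Subtype.ext e)
  have hu : IsUnit (Subalgebra.inclusion h.sub.le (MvPolynomial.aeval d.B.z g)) :=
    IsUnit.of_mul_eq_one ⟨_, (hs _ (Finset.mem_singleton_self _)).2⟩
      (Subtype.ext (mul_inv_cancel₀ h0))
  exact (hu.map b).ne_zero

theorem Const.re {δ' : Type} [Fintype δ'] [DecidableEq δ'] {d' : Dat δ' K ν M} (h : d.Const)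
    (r : d.Re d') : d'.Const := fun b b' a => by rw [(r.Dd b).2, (r.Dd b').2, h]

end Dat

end Pool.Agent.Lib.MP_5c318e_ag
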