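import Pool.Agent.Lib.MP_5c318e_ag.Va.IDefs
import Pool.Agent.Lib.MP_5c318e_ag.S.CCov

/-! Families of relative dimension zero are isotrivial. -/

set_option autoImplicit false
set_option linter.unusedSectionVars false

namespace Pool.Agent.Lib.MP_5c318e_ag

open Set

variable {ν K M : Type} [Fintype ν] [DecidableEq ν] [Field K] [Algebra ℂ K] [Field M] [Algebra ℂ M]
  [Algebra K M] [IsScalarTower ℂ K M]

namespace Dat

theorem isotriv_empty [IsEmpty ν] (d : Dat Unit K ν M) : Isotriv K M := by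
  intro Om _ _ ψ
  have h := (d.T.toRel.dual.basis.isEmpty_iff_isAlgebraic).1 inferInstance
  have e : ∀ F : Subfield Om, adj F ((∅ : Finset Om) : Set Om) = F := fun F => by simp [adj]
  refine ⟨∅, ?_, ?_⟩
  · rw [e]
    refine sup_eq_right.2 (le_trans ?_ (le_acl _))
    rintro _ ⟨x, rfl⟩
    obtain ⟨c, rfl⟩ := d.ac x (h.isAlgebraic x)
    exact ⟨c, rfl⟩
  · rw [e]
    exact fun _ _ _ hi => hi

end Dat

end Pool.Agent.Lib.MP_5c318e_ag
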